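import Pool.Agent.Helper84.XL.B
import Pool.Agent.Helper84.UC.L

/-!
Near cells with twin states: classes whose orders are known (exact, also orders at least ten with
thin weights) or tails, mixed. Part 3: the lines (`x_A`, a constant line, a line given by a
quadratic polynomial of the weight of the tail) and the theorems of the modules.
-/

set_option autoImplicit false
set_option exponentiation.threshold 4000
noncomputable section
namespace Pool.Agent.Helper84.XL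

open Pool.Agent.Helper81.MIT
open Pool.Agent.Helper86.CX (Hm P9 VR ev Cx andB)
open Pool.Agent.Helper86.CT (LT2 Mo Mc Mq Sv Vx Cls Prog CellT Rw chkDT mk addM uM zM Alg mkCls
  clsOK xAM xAOK)
open Pool.Agent.Helper90.C75 (Vt avg wtT bt Mod)
open Pool.Agent.Helper86.C75 (Z)
open Pool.Agent.Helper90.KMO (zv UU cz zv_p)
open Pool.Agent.Helper90.KMT (PT TOK KTab CLT vt_mk)
open Pool.Agent.Helper17.KPT (MK)
open Pool.Agent.Helper6.MONO (V3 RV2 kk mm RMb zw Kp xA LNI_mm Y0 xA_gt xA_le2 xA_max xA_swap Thr)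
open Pool.Agent.Helper6.MONO.QTR (V0 e0)
open Pool.Agent.Helper6.MID
open Pool.Agent.Helper6.PRG (giS gsF gsF_giS)
open Pool.Agent.Helper21.SUP (GS DG gM std)
open Pool.Agent.Helper21.SUP renaming nx → nxs
open Pool.Agent.Helper39.SLT (T4 ML)
open Pool.Agent.Helper39.NCL (WN wS NA)
open Pool.Agent.Helper39.NFT (Ch CBT sideLT sideNT has_ge modXE cld_E cX)
open Pool.Agent.Helper21.KRN (TProg PtR XM expand xOK)
open Pool.Agent.Helper21.KTE (MZ KS wfK CLD chkDT_pt sideT TOK_xA QD)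
open Pool.Agent.Helper48.NCT (IT FTT NDT chkNT chkPNT ON)
open Pool.Agent.Helper57.KNB (FDT FamTOK)
open Pool.Agent.Helper57.U2
open Pool.Agent.Helper21.XB (mo_near Bq_lip Bq_sum)
open Pool.Agent.Helper6.MONO.XTH (Bq)
open Complex ComplexConjugate

variable {p q r : ℕ} {A B C : Od} {RL : List (List (ℕ × ℕ))} {BE BO : List ℕ} {G : TProg}
  {kf kr : ℕ → T4 → ℕ} {il : List IT}

/-! ### the lines -/

/-- the quadratic polynomial with the controls `x`, `y`, `z` -/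
def q3 (x y z s : ℝ) : ℝ := (1 - s) ^ 2 * x + 2 * s * (1 - s) * y + s ^ 2 * z

/-- the parameter of a weight in the box `[lo, hi]` -/
def par (lo hi : ℕ) (κ : ℝ) : ℝ := (2 ^ 48 * κ - lo) / (hi - lo)

/-- `x0` is close to the quadratic polynomial with the controls `XA`, `XB`, `XC` on the box
`[lo, hi]` of the weight of the order `r` -/
def XH (XA XB XC : Z) (lo hi n r : ℕ) (x0 : ℝ) : Prop :=
  |2 ^ 48 * x0 - q3 (zv XA : ℤ) (zv XB : ℤ) (zv XC : ℤ) (par lo hi (Kp r))| ≤ (n : ℝ)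

section

variable {α β P v γ : Type} {D : ℕ} {lC : α → Vt (D + 1) → Cx} {lf : α → Vt (D + 1) → ℂ}
  {mf : (ℕ → ℝ) → β → (ℕ → ℝ) → ℝ} {lp : P → Vt (D + 1) → P9} {lv : v → Vt (D + 1) → VR}
  {lg : γ → Vt (D + 1) → ℕ} {Sa : α → List Bool → Prop} {Sp : P → List Bool → Prop}
  {Sv' : v → List Bool → Prop} {Sg : γ → List Bool → Prop} {M : Mc α β P v γ}
  {S : Sv P} {W : Vx β} {Y : ℕ → ℕ → α} {qd : ℕ → Cx → Cx → Cx → α} {rt : α → Bool}

/-- the Boolean conditions of the weights of a module on the exact line, thin labels allowed -/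
def modXL (M : Mc α β P v γ) (rt : α → Bool) (D : ℕ) (X : XM α v) (s0 s1 s2 : KS) (a b c : Lb) :
    Bool :=
  wfL D s0 s1 s2 a b c && (xOK X && (clsOK M.A X.k0 X.k1 X.k2 &&
    (xAOK M.A X.k0 X.k1 X.k2 && rt (xAM M.A X.k0 X.k1 X.k2).v)))

/-- the data of the weights at the orders `p q r`, line `x = xA p q r` -/
theorem cld_L {X : XM α v} {Q : Mq α v} {cv : VR → v} {rc : Rw}
    (hZ : MZ D lC lf mf lp lv lg Sa Sp Sv' Sg M Q cv rc S W Y qd rt) {a b c : Lb}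
    (ha : a.has p) (hb : b.has q) (hc : c.has r) {s0 s1 s2 : KS}
    (h : modXL M rt D X s0 s1 s2 a b c = true) (e0 : X.k0 = s0.mo M.A qd)
    (e1 : X.k1 = s1.mo M.A qd) (e2 : X.k2 = s2.mo M.A qd) :
    CLD D lf M qd rt X (xAM M.A X.k0 X.k1 X.k2) s0 s1 s2 (kR p q r) (xA p q r) := by
  unfold modXL wfL at h
  simp only [Bool.and_eq_true] at h
  obtain ⟨⟨w1, w2, w3, w4, w5⟩, h5, h6, h7, h8⟩ := h
  refine ⟨Nat.le_of_ble_eq_true w1, w2, by rw [kR_0]; exact mat_ok w3 ha,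
    by rw [kR_1]; exact mat_ok w4 hb, by rw [kR_2]; exact mat_ok w5 hc, e0, e1, e2, h5, h6, h8, ?_⟩
  intro t ht g0 g1 g2
  have g := TOK_xA hZ.m.a ht g0 g1 g2 h7
  rwa [← xA_eq] at g

/-- the model of a quadratic polynomial of the weight of the tail -/
def qM (A : Alg α) (qd : ℕ → Cx → Cx → Cx → α) (XA XB XC : Z) (n : ℕ) : Mo α :=
  mk A (qd (nat_lit 0) ⟨XA, Z.p (nat_lit 0)⟩ ⟨XB, Z.p (nat_lit 0)⟩ ⟨XC, Z.p (nat_lit 0)⟩)
    (Nat.add n (nat_lit 12288))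

/-- the size of a control -/
def zOK : Z → Bool
  | Z.p n => Nat.ble n 562949953421312
  | Z.m n => Nat.ble n 562949953421312

/-- the Boolean conditions of the weights of a module on a line given by a quadratic polynomial of
the weight of the last place -/
def modXO (M : Mc α β P v γ) (rt : α → Bool) (qd : ℕ → Cx → Cx → Cx → α) (D : ℕ) (X : XM α v)
    (XA XB XC : Z) (n : ℕ) (s0 s1 : KS) (lo hi : ℕ) (a b c : Lb) : Bool :=
  wfL D s0 s1 (KS.T 0 lo hi) a b c && (xOK X && (clsOK M.A X.k0 X.k1 X.k2 &&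
    (rt (qM M.A qd XA XB XC n).v && (Nat.ble (lo + 274877906944) hi &&
      (zOK XA && (zOK XB && zOK XC))))))

theorem zOK_abs {x : Z} (h : zOK x = true) : |((zv x : ℤ) : ℝ)| ≤ 562949953421312 := by
  cases x with
  | p n =>
    have h1 : n ≤ 562949953421312 := Nat.le_of_ble_eq_true h
    show |(((n : ℕ) : ℤ) : ℝ)| ≤ _
    rw [Int.cast_natCast, abs_of_nonneg (Nat.cast_nonneg n)]
    exact_mod_cast h1
  | m n =>
    have h1 : n ≤ 562949953421312 := Nat.le_of_ble_eq_true h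
    show |((-((n : ℕ) : ℤ) : ℤ) : ℝ)| ≤ _
    rw [Int.cast_neg, Int.cast_natCast, abs_neg, abs_of_nonneg (Nat.cast_nonneg n)]
    exact_mod_cast h1

theorem q3_lip {x y z s s' : ℝ} (hx : |x| ≤ 562949953421312) (hy : |y| ≤ 562949953421312)
    (hz : |z| ≤ 562949953421312) (h0 : 0 ≤ s) (h1 : s ≤ 1) (h0' : 0 ≤ s') (h1' : s' ≤ 1)
    (h : |s - s'| ≤ 1 / 274877906944) : |q3 x y z s - q3 x y z s'| ≤ 12288 := by
  have e : ∀ u : ℝ, q3 x y z u = ∑ a, Bq u a * (![x, y, z] : Fin 3 → ℝ) a := by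
    intro u
    rw [Bq_sum]
    rfl
  have hf : ∀ a, |(![x, y, z] : Fin 3 → ℝ) a| ≤ 562949953421312 := by
    intro a
    fin_cases a
    · exact hx
    · exact hy
    · exact hz
  rw [e, e]
  refine (Bq_lip h0 h1 h0' h1' hf).trans ?_
  have h2 := mul_le_mul_of_nonneg_left h (by norm_num : (0 : ℝ) ≤ 6 * 562949953421312)
  refine h2.trans (le_of_eq ?_)
  norm_num

/-- the data of the weights at the orders `p q r`, a line given by a quadratic polynomial -/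
theorem cld_O {X : XM α v} {Q : Mq α v} {cv : VR → v} {rc : Rw}
    (hZ : MZ D lC lf mf lp lv lg Sa Sp Sv' Sg M Q cv rc S W Y qd rt) {a b c : Lb}
    (ha : a.has p) (hb : b.has q) (hc : c.has r) {s0 s1 : KS} {lo hi n : ℕ} {XA XB XC : Z}
    (h : modXO M rt qd D X XA XB XC n s0 s1 lo hi a b c = true) (e0 : X.k0 = s0.mo M.A qd)
    (e1 : X.k1 = s1.mo M.A qd) (e2 : X.k2 = (KS.T 0 lo hi).mo M.A qd) {x0 : ℝ}
    (hX : XH XA XB XC lo hi n r x0) :
    CLD D lf M qd rt X (qM M.A qd XA XB XC n) s0 s1 (KS.T 0 lo hi) (kR p q r) x0 := by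
  unfold XH at hX
  unfold modXO wfL at h
  simp only [Bool.and_eq_true] at h
  obtain ⟨⟨w1, w2, w3, w4, w5⟩, h5, h6, h7, h8, z1, z2, z3⟩ := h
  have o2 : (KS.T 0 lo hi).ok (kR p q r 2) := by
    rw [kR_2]
    exact mat_ok w5 hc
  refine ⟨Nat.le_of_ble_eq_true w1, w2, by rw [kR_0]; exact mat_ok w3 ha,
    by rw [kR_1]; exact mat_ok w4 hb, o2, e0, e1, e2, h5, h6, h7, ?_⟩
  intro t ht g0 g1 g2
  have wT : (KS.T 0 lo hi).wf D = true := by
    unfold wfK at w2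
    simp only [Bool.and_eq_true] at w2
    exact w2.2.2.1
  have hj : 0 < D := by
    have h' : (Nat.blt 0 D && Pool.Agent.Helper86.CX.evC lo hi) = true := wT
    rw [Bool.and_eq_true] at h'
    exact Nat.le_of_ble_eq_true h'.1
  have hlh : lo + 274877906944 ≤ hi := Nat.le_of_ble_eq_true h8
  have hlh' : (lo : ℝ) + 274877906944 ≤ hi := by exact_mod_cast hlh
  have hd : (0 : ℝ) < hi - lo := by linarith
  rw [kR_2] at o2 g2
  rw [e2] at g2
  obtain ⟨o3, o4⟩ : (lo : ℝ) ≤ 2 ^ 48 * Kp r ∧ 2 ^ 48 * Kp r ≤ hi := o2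
  have t0 : 0 ≤ par lo hi (Kp r) := div_nonneg (by linarith) hd.le
  have t1 : par lo hi (Kp r) ≤ 1 := by
    unfold par
    rw [div_le_one hd]
    linarith
  have hτ : Kp r = ((1 - par lo hi (Kp r)) * (Pool.Agent.Helper21.XB.kl (KS.T 0 lo hi) : ℤ) +
      par lo hi (Kp r) * (Pool.Agent.Helper21.XB.kh (KS.T 0 lo hi) : ℤ)) / 2 ^ 48 := by
    show Kp r = ((1 - par lo hi (Kp r)) * ((lo : ℤ) : ℝ) + par lo hi (Kp r) * ((hi : ℤ) : ℝ)) / 2 ^ 48
    unfold par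
    push_cast
    field_simp
    ring
  have hn := mo_near hZ.q ht wT (by
    show Nat.ble (lo + 274877906944) hi = true
    exact h8) rfl hτ g2
  have hn' : |par lo hi (Kp r) - t 0| ≤ 1 / 274877906944 := hn
  refine ⟨vt_mk hZ.m.a _ _, ?_⟩
  show ‖(UU : ℂ) * (x0 : ℂ) - avg (wtT (D + 1) t) (lf (qd 0 ⟨XA, Z.p (nat_lit 0)⟩
    ⟨XB, Z.p (nat_lit 0)⟩ ⟨XC, Z.p (nat_lit 0)⟩))‖ ≤ ((n + 12288 : ℕ) : ℝ)
  rw [(hZ.q 0 hj).av _ _ _ t ht]
  have hU : (UU : ℝ) = 2 ^ 48 := by unfold UU; norm_num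
  have ez : ∀ x : Z, cz ⟨x, Z.p (nat_lit 0)⟩ = (((zv x : ℤ) : ℝ) : ℂ) := by
    intro x
    apply Complex.ext
    · rfl
    · show ((zv (Z.p (nat_lit 0)) : ℤ) : ℝ) = _
      rw [zv_p]
      simp
  have e : (UU : ℂ) * (x0 : ℂ) - ((((1 - t 0) ^ 2 : ℝ) : ℂ) * cz ⟨XA, Z.p (nat_lit 0)⟩ +
      ((2 * t 0 * (1 - t 0) : ℝ) : ℂ) * cz ⟨XB, Z.p (nat_lit 0)⟩ +
      (((t 0) ^ 2 : ℝ) : ℂ) * cz ⟨XC, Z.p (nat_lit 0)⟩) =
      ((2 ^ 48 * x0 - q3 (zv XA : ℤ) (zv XB : ℤ) (zv XC : ℤ) (t 0) : ℝ) : ℂ) := by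
    rw [ez, ez, ez, ← hU]
    unfold q3
    push_cast
    ring
  rw [e, Complex.norm_real, Real.norm_eq_abs]
  have k := q3_lip (zOK_abs z1) (zOK_abs z2) (zOK_abs z3) t0 t1 (ht.h0 0 (by omega))
    (ht.h1 0 (by omega)) hn'
  have k2 := abs_sub_le (2 ^ 48 * x0) (q3 (zv XA : ℤ) (zv XB : ℤ) (zv XC : ℤ) (par lo hi (Kp r)))
    (q3 (zv XA : ℤ) (zv XB : ℤ) (zv XC : ℤ) (t 0))
  push_cast
  linarith

/-! ### the theorems of the modules -/

/-- line `xA`, any certificate of the points, thin labels allowed -/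
theorem nearO_A {X : XM α v}
    (hZ : MZ D lC lf mf lp lv lg Sa Sp Sv' Sg M X.Q X.c X.r S W Y qd rt) {ONE : β}
    (h1 : ON mf ONE) {F : FTT α β (FDT β)} (hF : FamTOK (D + 1) lf mf F) {a b c : Lb}
    (ha : a.has p) (hb : b.has q) (hc : c.has r) (hpr : p ≤ r) (hqr : q ≤ r)
    {s0 s1 s2 : KS} (hx : modXL M rt D X s0 s1 s2 a b c = true)
    (e0 : X.k0 = s0.mo M.A qd) (e1 : X.k1 = s1.mo M.A qd) (e2 : X.k2 = s2.mo M.A qd)
    {W0 W1 W2 : WN} {sl : List ℕ} {le : List LT2}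
    (hPt : PtU p q r G sl le il W0 W1 W2)
    {f0 f1 f2 : Bool} (g0 : f0 = W0.f) (g1 : f1 = W1.f) (g2 : f2 = W2.f)
    {l : List (NDT α β (FDT β))} (hl : l ≠ []) {As : List NA}
    (hs : sideLT (sideNT W0 W1 W2 (sideT W le)) l As = true) {y e : ℕ}
    (H : chkPNT M S W Y F f0 f1 f2 X.k0 X.k1 X.k2 (mkCls M.A X.k0 X.k1 X.k2) (expand X G)
      (xAM M.A X.k0 X.k1 X.k2) sl le ONE il e l y = true) :
    TCellU p q r (xA p q r) ((y : ℝ) / 2 ^ 48) ((e : ℝ) / 2 ^ 48) := by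
  have hp := has_ge ha
  have hq := has_ge hb
  have hr := has_ge hc
  have hC := cld_L (X := X) hZ ha hb hc hx e0 e1 e2
  have t3 : xA q r p ≤ xA p q r := by
    have h := xA_max hq hp hpr
    rw [xA_swap p q r] at h
    rwa [xA_swap q r p] at h
  exact nearU_G hZ h1 hF hp hq hr hC (xA_gt hp hq hqr) (xA_le2 hp hq hr) le_rfl
    t3 (xA_max hp hq hqr) hPt g0 g1 g2 hl hs H

/-- a line given by a quadratic polynomial, any certificate of the points -/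
theorem nearO_Q {X : XM α v}
    (hZ : MZ D lC lf mf lp lv lg Sa Sp Sv' Sg M X.Q X.c X.r S W Y qd rt) {ONE : β}
    (h1 : ON mf ONE) {F : FTT α β (FDT β)} (hF : FamTOK (D + 1) lf mf F) {a b c : Lb}
    (ha : a.has p) (hb : b.has q) (hc : c.has r) {s0 s1 : KS} {lo hi n : ℕ} {XA XB XC : Z}
    (hx : modXO M rt qd D X XA XB XC n s0 s1 lo hi a b c = true) (e0 : X.k0 = s0.mo M.A qd)
    (e1 : X.k1 = s1.mo M.A qd) (e2 : X.k2 = (KS.T 0 lo hi).mo M.A qd) {x0 : ℝ}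
    (hX : XH XA XB XC lo hi n r x0)
    (hT : Thr p q r x0) {W0 W1 W2 : WN} {sl : List ℕ} {le : List LT2}
    (hPt : PtU p q r G sl le il W0 W1 W2)
    {f0 f1 f2 : Bool} (g0 : f0 = W0.f) (g1 : f1 = W1.f) (g2 : f2 = W2.f)
    {l : List (NDT α β (FDT β))} (hl : l ≠ []) {As : List NA}
    (hs : sideLT (sideNT W0 W1 W2 (sideT W le)) l As = true) {y e : ℕ}
    (H : chkPNT M S W Y F f0 f1 f2 X.k0 X.k1 X.k2 (mkCls M.A X.k0 X.k1 X.k2) (expand X G)
      (qM M.A qd XA XB XC n) sl le ONE il e l y = true) :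
    TCellU p q r x0 ((y : ℝ) / 2 ^ 48) ((e : ℝ) / 2 ^ 48) := by
  have hC := cld_O (X := X) hZ ha hb hc hx e0 e1 e2 hX
  exact nearU_G hZ h1 hF (has_ge ha) (has_ge hb) (has_ge hc) hC hT.gt hT.le hT.A1 hT.A2 hT.A3
    hPt g0 g1 g2 hl hs H

end

end Pool.Agent.Helper84.XL
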