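import Pool.Agent.Helper57.KNB.KC1

/-!
B tests without border cells (MP_c75db0).
-/

set_option autoImplicit false
namespace Pool.Agent.Helper84.XL

open Pool.Agent.Helper57.KNB (BXT)

/-- a B test without border cells -/
def nbX {α β : Type} (F : BXT α β) : BXT α β :=
  fun k0 k1 k2 C x yb D KT u z =>
    Bool.rec (motive := fun _ => Bool) (F k0 k1 k2 C x yb D KT u z) false D.b

end Pool.Agent.Helper84.XL
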