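import Pool.Agent.Helper84.XL.D
import Pool.Agent.Helper84.XL.NX
import Pool.Agent.Helper57.KNK.PK4
import Pool.Agent.Helper39.XP.A

/-!
Near cells with twin states and tests of type B on ANY line (MP_c75db0): the ordinary B test (no
border cell) does not use `fB = 0`.
-/

set_option autoImplicit false
set_option exponentiation.threshold 4000
noncomputable section
namespace Pool.Agent.Helper84.XL

open Pool.Agent.Helper81.MIT
open Pool.Agent.Helper86.CX (Hm P9 VR ev Cx andB kf)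
open Pool.Agent.Helper86.CT (LT2 Mo Mc Mq Sv Vx Cls Prog CellT Rw chkDT mk addM uM zM Alg Up mkCls
  clsOK xAM)
open Pool.Agent.Helper90.C75 (Vt)
open Pool.Agent.Helper86.C75 (Z)
open Pool.Agent.Helper90.KMO (zv)
open Pool.Agent.Helper90.KMT (AOK UOK PT TOK KTab CLT TLW nmf mf0)
open Pool.Agent.Helper6.MONO (omS RMb zw Kp xA xA_gt xA_le2 xA_max xA_swap Thr)
open Pool.Agent.Helper6.MID
open Pool.Agent.Helper6.PIE (z_ne)
open Pool.Agent.Helper21.SUP (GS DG gM)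
open Pool.Agent.Helper21.SUP renaming nx → nxs
open Pool.Agent.Helper6.MONO (sD)
open Pool.Agent.Helper21.KCE (andB_tt)
open Pool.Agent.Helper39.NCL (WN wS NA zw_ne)
open Pool.Agent.Helper39.NFT
open Pool.Agent.Helper39.XP (expandX chkDTX_pt)
open Pool.Agent.Helper39.SLT (T4 ML)
open Pool.Agent.Helper21.KRN (TProg PtR XM expand xOK cκ NZ)
open Pool.Agent.Helper21.KTE (MZ KS wfK CLD chkDT_pt sideT)
open Pool.Agent.Helper48.NCT (IT FTT NDT ON)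
open Pool.Agent.Helper57.KNB
open Pool.Agent.Helper57.U2 (TCellU tcellU_of_z)
open Pool.Agent.Helper57.KNK (chB1k chB2k chB3k chB4k arK_sound)
open Pool.Agent.Helper86.CK
open Pool.Agent.Helper55.U2
open Complex ComplexConjugate

variable {α β : Type}

/-- SOUNDNESS OF A B TEST OF A NEAR CELL on any line -/
def BXON (D : ℕ) (lf : α → Vt D → ℂ) (mf : (ℕ → ℝ) → β → (ℕ → ℝ) → ℝ) (F : BXT α β) : Prop :=
  ∀ {t : ℕ → ℝ}, PT D t → ∀ {p q r : ℕ} {w : ℂ}, 3 ≤ p → 3 ≤ q → 3 ≤ r →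
    (∀ s, DG s → omS p q r s w ≠ 0) → ∀ {z : ℂ}, z = (1 + w) / (1 - w) → z ≠ 0 →
    ∀ {X : Mo α} {yb : ℕ} {k0 k1 k2 : Mo α}, TOK D lf t (Kp p : ℂ) k0 → TOK D lf t (Kp q : ℂ) k1 →
    TOK D lf t (Kp r : ℂ) k2 → ∀ {κ : Fin 3 → ℂ}, κ 0 = Kp p → κ 1 = Kp q → κ 2 = Kp r →
    ∀ {C : Cls α}, CLT D lf t κ C → ∀ {Um Zm : Mo α}, TOK D lf t z⁻¹ Um → TOK D lf t z Zm →
    ∀ {KT : β} {d : BND α β}, F k0 k1 k2 C X yb d KT Um Zm = true →
    ∀ {a : AB}, sideB d a = true → ∀ {idx : GS → T4 → ℕ},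
    covDT idx p q r (0, 1, 2) d.P = true → covDT idx p q r (0, 2, 1) d.M = true →
    (∀ s, (s = (1, 2, 0) ∨ s = (2, 1, 0) ∨ s = (2, 0, 1) ∨ s = (1, 0, 2)) → ∀ T : T4,
      T.ok (ML p q r s) → T.low (ML p q r s) ≤ 2 → T ≠ T4.two →
      ∀ v, 0 < ev (KTab mf KT (idx s T) t) v →
        0 < ev (KTab mf KT (idx (nxs s 2) T4.two) t) ((RMb p q r s 2 w).mulVec v)) →
    ∀ s, DG s → ∀ T : T4, T.ok (ML p q r s) → T.low (ML p q r s) ≤ 2 → T ≠ T4.two → ∀ k : ℕ,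
      ∀ v, 0 < ev (KTab mf KT (idx s T) t) v →
        0 < ev (KTab mf KT (idx (sD s (List.replicate (k + 1) 2)) T4.two) t)
          ((gM (RMb p q r) s (List.replicate (k + 1) 2) w).mulVec v)

section

variable {p' v' γ M PH : Type} {D : ℕ} {lf : α → Vt D → ℂ}
  {mf : (ℕ → ℝ) → β → (ℕ → ℝ) → ℝ} {V : Vx β} {cv : Pool.Agent.Helper86.CT.Mo α → M}
  {R : Ar M PH}

/-- THE B TESTS WITHOUT BORDER CELLS ARE SOUND ON ANY LINE, any arithmetic -/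
theorem nbX_ok {K : Mc α β p' v' γ} (hA : AOK D lf K.A) (hU : UOK D lf mf K.U)
    (hw : K.w * 2 ^ D = 2 ^ 28) (hV : VLw D mf V)
    (hRs : ∀ {t : ℕ → ℝ}, PT D t → ∃ (OK : ℂ → M → Prop) (HK : Hm ℝ → PH → Prop), ArS R OK HK ∧
      ∀ {f : ℂ} {m : Pool.Agent.Helper86.CT.Mo α}, TOK D lf t f m → OK f (cv m)) :
    BXON D lf mf (nbX (chBN K V R cv)) := by
  intro t hP p q r w hp hq hr hom z hzw hz X yb k0 k1 k2 a0 a1 a2 κ e0
    e1 e2 C hC Um Zm hUm hZ KT d h a ha idx cp cm hd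
  unfold sideB at ha
  unfold nbX at h
  cases hb : d.b with
  | false =>
    rw [if_neg (by rw [hb]; decide), Bool.and_eq_true] at ha
    rw [hb] at h
    have h' : chBR K V R cv k0 k1 k2 C d.P d.M KT Um Zm = true := by
      have h2 : chBN K V R cv k0 k1 k2 C X yb d KT Um Zm = true := h
      unfold chBN at h2
      rw [hb] at h2
      exact h2
    exact chBR_ok hA hU hw hV hRs hP hp hq hr hom hzw hz a0 a1 a2 e0 e1 e2 hC hUm hZ h' ha.1 ha.2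
      cp cm hd
  | true =>
    rw [hb] at h
    have h2 : (false : Bool) = true := h
    exact absurd h2 Bool.false_ne_true

end

/-- packed machines -/
theorem nb1k_ok : BXON 1 lfK (nmf 0 mf0) (nbX chB1k) :=
  nbX_ok (AOKK _) UK1 (by decide) W1_law fun {t} hP =>
    ⟨TOK 1 lfK t, HOK (TOK 1 lfK t), arK_sound _ hP, fun h => h⟩
theorem nb2k_ok : BXON 2 lfK (nmf 1 (nmf 0 mf0)) (nbX chB2k) :=
  nbX_ok (AOKK _) UK2 (by decide) W2_law fun {t} hP =>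
    ⟨TOK 2 lfK t, HOK (TOK 2 lfK t), arK_sound _ hP, fun h => h⟩
theorem nb3k_ok : BXON 3 lfK (nmf 2 (nmf 1 (nmf 0 mf0))) (nbX chB3k) :=
  nbX_ok (AOKK _) UK3 (by decide) W3_law fun {t} hP =>
    ⟨TOK 3 lfK t, HOK (TOK 3 lfK t), arK_sound _ hP, fun h => h⟩
theorem nb4k_ok : BXON 4 lfK (nmf 3 (nmf 2 (nmf 1 (nmf 0 mf0)))) (nbX chB4k) :=
  nbX_ok (AOKK _) UK4 (by decide) W4_law fun {t} hP =>
    ⟨TOK 4 lfK t, HOK (TOK 4 lfK t), arK_sound _ hP, fun h => h⟩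

section

variable {p q r : ℕ} {P v γ δ : Type} {D : ℕ} {lC : α → Vt D → Cx} {lf : α → Vt D → ℂ}
  {mf : (ℕ → ℝ) → β → (ℕ → ℝ) → ℝ} {lp : P → Vt D → P9} {lv : v → Vt D → VR}
  {lg : γ → Vt D → ℕ} {Sp : P → List Bool → Prop} {Sv' : v → List Bool → Prop}
  {Sg : γ → List Bool → Prop} {M : Mc α β P v γ}

/-- A NEAR CELL WITH B TESTS, any line -/
theorem cell_NBN (hM : Pool.Agent.Helper17.KPT.MK D lC lf mf lp lv lg Sp Sv' Sg M)
    (hn : ∀ (f : ℕ → ℝ) (T : β) (t : ℕ → ℝ), PT D t → (∀ x, 0 ≤ f x) → 0 ≤ mf f T t)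
    {ONE : β} (h1 : ON mf ONE) {F : FTT α β δ} {kx ke : δ → ℕ} {SD : δ → Prop}
    (hF : FamOKT D lf mf F kx ke SD) {FB : BXT α β} (hFB : BXON D lf mf FB) (hp : 3 ≤ p)
    (hq : 3 ≤ q) (hr : 3 ≤ r) {x0 : ℝ} (x1 : -2 < x0) (x2 : x0 ≤ 2)
    (t1 : xA p q r ≤ x0) (t2 : xA q r p ≤ x0) (t3 : xA r p q ≤ x0)
    {W0 W1 W2 : WN} {G : TProg} {il : List IT} {sl : List ℕ}
    {le : List LT2} {idx : GS → T4 → ℕ} (hm : HCert p q r idx W0 W1 W2 G il sl le)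
    {S : Sv P} {W : Vx β} {y : ℕ → ℕ → α} {k0 k1 k2 : Mo α} {C : Cls α} {Ge : Prog v}
    {X : Mo α} {d : NBT α β δ} (s0 : SdW kx ke SD W0 d.n.D0)
    (s1 : SdW kx ke SD W1 d.n.D1) (s2 : SdW kx ke SD W2 d.n.D2) {A : AB}
    (sB : sideNX idx p q r d.B A = true)
    (H : chkNB M S W y F FB W0.f W1.f W2.f k0 k1 k2 C Ge X sl le ONE il d = true)
    (hD : chkDT M S W y C Ge X sl le d.n.c = true → CAllX D lf mf M.A p q r x0 G sl le k0 k1 k2 C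
      X (addM M.A X (mk M.A (y d.n.c.ya d.n.c.yb) (nat_lit 0))) d.n.c) :
    TCellU p q r x0 ((d.n.c.ya : ℝ) / 2 ^ 48) ((d.n.c.yb : ℝ) / 2 ^ 48) := by
  obtain ⟨H, HB⟩ := andB_tt H
  obtain ⟨H1, H⟩ := andB_tt H
  obtain ⟨H2, H3⟩ := andB_tt H
  unfold sideNX at sB
  rw [Bool.and_eq_true, Bool.and_eq_true] at sB
  obtain ⟨sB, cP, cM⟩ := sB
  refine tcellU_of_z x1 x2 CBT ?_
  intro z y hy0 hya hyb hz _ _ hui hzx
  obtain ⟨t, h, hX⟩ := hD H1 hy0 hya hyb hz hui hzx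
  have hI := Pool.Agent.Helper48.NCT.chkIT_pos hM hn h1 H2 h.pt
  have hz1 := z_ne x1 hzx
  have hN : NZ (kap3 p q r) z := by
    have h2 := h.P.nz
    rwa [cκ_kR] at h2
  have hfam := fam_ptT hF hp hq hr x1 t1 t2 t3 h.pt hy0 hz hzx hN h.a0 h.a1 h.a2 h.C h.u h.z s0 s1 s2
    H3
  obtain ⟨hw1, hw2, hzw⟩ := zw_ne hz hz1
  have hom : ∀ s, DG s → omS p q r s (zw z) ≠ 0 := by
    intro s h
    rw [oZ_omS hz hz1 s h]
    exact nz_ne hN _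
  exact hm hz hz1 h.P hI hfam
    (hFB h.pt hp hq hr hom hzw hz h.a0 h.a1 h.a2 rfl rfl rfl h.C h.u h.z HB sB cP cM)

end

section

variable {p q r : ℕ} {P v γ : Type} {D : ℕ} {lC : α → Vt D → Cx} {lf : α → Vt D → ℂ}
  {mf : (ℕ → ℝ) → β → (ℕ → ℝ) → ℝ} {lp : P → Vt D → P9} {lv : v → Vt D → VR}
  {lg : γ → Vt D → ℕ} {Sp : P → List Bool → Prop} {Sv' : v → List Bool → Prop}
  {Sg : γ → List Bool → Prop} {M : Mc α β P v γ} {kf kr : ℕ → T4 → ℕ}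

/-- A LIST OF NEAR CELLS WITH B TESTS, any line -/
theorem list_NBN (hM : Pool.Agent.Helper17.KPT.MK D lC lf mf lp lv lg Sp Sv' Sg M)
    (hn : ∀ (f : ℕ → ℝ) (T : β) (t : ℕ → ℝ), PT D t → (∀ x, 0 ≤ f x) → 0 ≤ mf f T t)
    {ONE : β} (h1 : ON mf ONE) {F : FTT α β (FDT β)} (hF : FamTOK D lf mf F) {FB : BXT α β}
    (hFB : BXON D lf mf FB) (hp : 3 ≤ p) (hq : 3 ≤ q) (hr : 3 ≤ r) {a b c : Lb}
    (ha : a.has p) (hb : b.has q) (hc : c.has r) {x0 : ℝ} (x1 : -2 < x0) (x2 : x0 ≤ 2)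
    (t1 : xA p q r ≤ x0) (t2 : xA q r p ≤ x0) (t3 : xA r p q ≤ x0)
    {W0 W1 W2 : WN} {G : TProg} {il : List IT} {sl : List ℕ}
    {le : List LT2} (hm : HCert p q r (idxB kf kr) W0 W1 W2 G il sl le)
    {S : Sv P} {W : Vx β} {Y : ℕ → ℕ → α} {k0 k1 k2 : Mo α} {C : Cls α} {Ge : Prog v}
    {X : Mo α} {f0 f1 f2 : Bool} (g0 : f0 = W0.f) (g1 : f1 = W1.f) (g2 : f2 = W2.f)
    {sc : CellT α β → Bool} {l : List (NBT α β (FDT β))} (hl : l ≠ [])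
    {As : List NAB} (hs : sideLB (sideNBU kf kr a b c W0 W1 W2 sc) l As = true)
    (hD : ∀ d : CellT α β, sc d = true → chkDT M S W Y C Ge X sl le d = true →
      CAllX D lf mf M.A p q r x0 G sl le k0 k1 k2 C X
        (addM M.A X (mk M.A (Y d.ya d.yb) (nat_lit 0))) d) {y e : ℕ}
    (H : chkPNB M S W Y F FB f0 f1 f2 k0 k1 k2 C Ge X sl le ONE il e l y = true) :
    TCellU p q r x0 ((y : ℝ) / 2 ^ 48) ((e : ℝ) / 2 ^ 48) := by
  subst g0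
  subst g1
  subst g2
  obtain ⟨d, l, rfl⟩ := List.exists_cons_of_ne_nil hl
  refine pcNB_U l d y H (sideLB_mem hs) fun u _ A hA hc' => ?_
  unfold sideNBU sideNT at hA
  simp only [Bool.and_eq_true] at hA
  obtain ⟨⟨h0, h2, h3, h4⟩, h5⟩ := hA
  have h6 : sideNX (idxB kf kr) p q r u.B A.b = true := by
    unfold sideNX at h5 ⊢
    rw [lb_rp ha, lb_rp hb, lb_rp hc, covDT_repB ⟨by decide, by decide, by decide⟩,
      covDT_repB ⟨by decide, by decide, by decide⟩] at h5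
    exact h5
  exact cell_NBN hM hn h1 (famOKT_of hF) hFB hp hq hr x1 x2 t1 t2 t3 hm
    (sideWT_iff h2) (sideWT_iff h3) (sideWT_iff h4) h6 hc' (fun hd => hD u.n.c h0 hd)

end

section

variable {p q r : ℕ} {P v γ : Type} {D : ℕ} {lC : α → Vt (D + 1) → Cx} {lf : α → Vt (D + 1) → ℂ}
  {mf : (ℕ → ℝ) → β → (ℕ → ℝ) → ℝ} {lp : P → Vt (D + 1) → P9} {lv : v → Vt (D + 1) → VR}
  {lg : γ → Vt (D + 1) → ℕ} {Sa : α → List Bool → Prop} {Sp : P → List Bool → Prop}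
  {Sv' : v → List Bool → Prop} {Sg : γ → List Bool → Prop} {M : Mc α β P v γ}
  {S : Sv P} {W : Vx β} {Y : ℕ → ℕ → α} {qd : ℕ → Cx → Cx → Cx → α} {rt : α → Bool}
  {kf kr : ℕ → T4 → ℕ}

/-- A MODULE OF NEAR CELLS WITH B TESTS, twin states, any line -/
theorem nearT_BN {X : XM α v}
    (hZ : MZ D lC lf mf lp lv lg Sa Sp Sv' Sg M X.Q X.c X.r S W Y qd rt) {ONE : β}
    (h1 : ON mf ONE) {F : FTT α β (FDT β)} (hF : FamTOK (D + 1) lf mf F) {FB : BXT α β}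
    (hFB : BXON (D + 1) lf mf FB) {a b c : Lb} (ha : a.has p) (hb : b.has q) (hc : c.has r)
    {s0 s1 s2 : KS} {Xo : Mo α} {x0 : ℝ} (hC : CLD D lf M qd rt X Xo s0 s1 s2 (kR p q r) x0)
    (x1 : -2 < x0) (x2 : x0 ≤ 2) (t1 : xA p q r ≤ x0) (t2 : xA q r p ≤ x0) (t3 : xA r p q ≤ x0)
    {W0 W1 W2 : WN} {G : TProg} {il : List IT}
    {sl : List ℕ} {le : List LT2} (hm : HCert p q r (idxB kf kr) W0 W1 W2 G il sl le)
    {f0 f1 f2 : Bool} (g0 : f0 = W0.f) (g1 : f1 = W1.f) (g2 : f2 = W2.f)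
    {l : List (NBT α β (FDT β))} (hl : l ≠ []) {As : List NAB}
    (hs : sideLB (sideNBU kf kr a b c W0 W1 W2 (sideT W le)) l As = true) {y e : ℕ}
    (H : chkPNB M S W Y F FB f0 f1 f2 X.k0 X.k1 X.k2 (mkCls M.A X.k0 X.k1 X.k2) (expandX X G)
      Xo sl le ONE il e l y = true) :
    TCellU p q r x0 ((y : ℝ) / 2 ^ 48) ((e : ℝ) / 2 ^ 48) := by
  refine list_NBN hZ.m.k hZ.w.pos h1 hF hFB (has_ge ha) (has_ge hb) (has_ge hc) ha hb hc x1 x2 t1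
    t2 t3 hm g0 g1 g2 hl hs ?_ H
  intro d hd hk z h hh0 hha hhb hz hui hzx
  obtain ⟨t, b1, b2, b3, b4, b5, b6, b7, b8⟩ := chkDTX_pt hZ hC hd hk (h := h)
    (by rw [div_le_iff₀ (by positivity)] at hha; linarith)
    (by rw [le_div_iff₀ (by positivity)] at hhb; linarith) hz hzx hui
  have b9 := hC.x0 t b1 b3 b4 b5
  rw [cκ_kR] at b6
  exact ⟨t, ⟨b1, b2, b3, b4, b5, b6, b7, b8⟩, b9⟩

variable {G : TProg} {il : List IT}

/-- line `xA`, tests of type B, thin labels allowed -/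
theorem nearN_A {X : XM α v}
    (hZ : MZ D lC lf mf lp lv lg Sa Sp Sv' Sg M X.Q X.c X.r S W Y qd rt) {ONE : β}
    (h1 : ON mf ONE) {F : FTT α β (FDT β)} (hF : FamTOK (D + 1) lf mf F) {FB : BXT α β}
    (hFB : BXON (D + 1) lf mf FB) {a b c : Lb}
    (ha : a.has p) (hb : b.has q) (hc : c.has r) (hpr : p ≤ r) (hqr : q ≤ r)
    {s0 s1 s2 : KS} (hx : modXL M rt D X s0 s1 s2 a b c = true)
    (e0 : X.k0 = s0.mo M.A qd) (e1 : X.k1 = s1.mo M.A qd) (e2 : X.k2 = s2.mo M.A qd)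
    {W0 W1 W2 : WN} {sl : List ℕ} {le : List LT2}
    (hm : HCert p q r (idxB kf kr) W0 W1 W2 G il sl le)
    {f0 f1 f2 : Bool} (g0 : f0 = W0.f) (g1 : f1 = W1.f) (g2 : f2 = W2.f)
    {l : List (NBT α β (FDT β))} (hl : l ≠ []) {As : List NAB}
    (hs : sideLB (sideNBU kf kr a b c W0 W1 W2 (sideT W le)) l As = true) {y e : ℕ}
    (H : chkPNB M S W Y F FB f0 f1 f2 X.k0 X.k1 X.k2 (mkCls M.A X.k0 X.k1 X.k2) (expandX X G)
      (xAM M.A X.k0 X.k1 X.k2) sl le ONE il e l y = true) :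
    TCellU p q r (xA p q r) ((y : ℝ) / 2 ^ 48) ((e : ℝ) / 2 ^ 48) := by
  have hp := has_ge ha
  have hq := has_ge hb
  have hr := has_ge hc
  have t3 : xA q r p ≤ xA p q r := by
    have h := xA_max hq hp hpr
    rw [xA_swap p q r] at h
    rwa [xA_swap q r p] at h
  exact nearT_BN hZ h1 hF hFB ha hb hc (cld_L (X := X) hZ ha hb hc hx e0 e1 e2)
    (xA_gt hp hq hqr) (xA_le2 hp hq hr) le_rfl t3 (xA_max hp hq hqr) hm g0 g1 g2 hl hs H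

/-- a line given by a quadratic polynomial, tests of type B -/
theorem nearN_Q {X : XM α v}
    (hZ : MZ D lC lf mf lp lv lg Sa Sp Sv' Sg M X.Q X.c X.r S W Y qd rt) {ONE : β}
    (h1 : ON mf ONE) {F : FTT α β (FDT β)} (hF : FamTOK (D + 1) lf mf F) {FB : BXT α β}
    (hFB : BXON (D + 1) lf mf FB) {a b c : Lb} (ha : a.has p) (hb : b.has q) (hc : c.has r)
    {s0 s1 : KS} {lo hi n : ℕ} {XA XB XC : Z}
    (hx : modXO M rt qd D X XA XB XC n s0 s1 lo hi a b c = true) (e0 : X.k0 = s0.mo M.A qd)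
    (e1 : X.k1 = s1.mo M.A qd) (e2 : X.k2 = (KS.T 0 lo hi).mo M.A qd) {x0 : ℝ}
    (hX : XH XA XB XC lo hi n r x0) (hT : Thr p q r x0)
    {W0 W1 W2 : WN} {sl : List ℕ} {le : List LT2}
    (hm : HCert p q r (idxB kf kr) W0 W1 W2 G il sl le)
    {f0 f1 f2 : Bool} (g0 : f0 = W0.f) (g1 : f1 = W1.f) (g2 : f2 = W2.f)
    {l : List (NBT α β (FDT β))} (hl : l ≠ []) {As : List NAB}
    (hs : sideLB (sideNBU kf kr a b c W0 W1 W2 (sideT W le)) l As = true) {y e : ℕ}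
    (H : chkPNB M S W Y F FB f0 f1 f2 X.k0 X.k1 X.k2 (mkCls M.A X.k0 X.k1 X.k2) (expandX X G)
      (qM M.A qd XA XB XC n) sl le ONE il e l y = true) :
    TCellU p q r x0 ((y : ℝ) / 2 ^ 48) ((e : ℝ) / 2 ^ 48) :=
  nearT_BN hZ h1 hF hFB ha hb hc (cld_O (X := X) hZ ha hb hc hx e0 e1 e2 hX)
    hT.gt hT.le hT.A1 hT.A2 hT.A3 hm g0 g1 g2 hl hs H

/-- a constant line, tests of type B -/
theorem nearN_E {X : XM α v}
    (hZ : MZ D lC lf mf lp lv lg Sa Sp Sv' Sg M X.Q X.c X.r S W Y qd rt) {ONE : β}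
    (h1 : ON mf ONE) {F : FTT α β (FDT β)} (hF : FamTOK (D + 1) lf mf F) {FB : BXT α β}
    (hFB : BXON (D + 1) lf mf FB) {a b c : Lb} (ha : a.has p) (hb : b.has q) (hc : c.has r)
    {s0 s1 s2 : KS} {Xz : Z} {n : ℕ} (hx : modXE M rt D X Xz n s0 s1 s2 a b c = true)
    (e0 : X.k0 = s0.mo M.A qd) (e1 : X.k1 = s1.mo M.A qd) (e2 : X.k2 = s2.mo M.A qd) {x0 : ℝ}
    (hX : |2 ^ 48 * x0 - (zv Xz : ℝ)| ≤ (n : ℝ)) (hT : Thr p q r x0)
    {W0 W1 W2 : WN} {sl : List ℕ} {le : List LT2}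
    (hm : HCert p q r (idxB kf kr) W0 W1 W2 G il sl le)
    {f0 f1 f2 : Bool} (g0 : f0 = W0.f) (g1 : f1 = W1.f) (g2 : f2 = W2.f)
    {l : List (NBT α β (FDT β))} (hl : l ≠ []) {As : List NAB}
    (hs : sideLB (sideNBU kf kr a b c W0 W1 W2 (sideT W le)) l As = true) {y e : ℕ}
    (H : chkPNB M S W Y F FB f0 f1 f2 X.k0 X.k1 X.k2 (mkCls M.A X.k0 X.k1 X.k2) (expandX X G)
      (cX M.A Xz n) sl le ONE il e l y = true) :
    TCellU p q r x0 ((y : ℝ) / 2 ^ 48) ((e : ℝ) / 2 ^ 48) :=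
  nearT_BN hZ h1 hF hFB ha hb hc (cld_E (X := X) hZ ha hb hc hx e0 e1 e2 hX)
    hT.gt hT.le hT.A1 hT.A2 hT.A3 hm g0 g1 g2 hl hs H

end

end Pool.Agent.Helper84.XL
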