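import Pool.Agent.Helper57.U2.F
import Pool.Agent.Helper39.D0.D4

/-!
Near cells with twin states: classes whose orders are known (exact, also orders at least ten with
thin weights) or tails, mixed. Part 1: the orders, the runs, the cover.
-/

set_option autoImplicit false
set_option exponentiation.threshold 4000
noncomputable section
namespace Pool.Agent.Helper84.XL

open Pool.Agent.Helper81.MIT
open Pool.Agent.Helper86.CX hiding gM
open Pool.Agent.Helper86.CT (LT2)
open Pool.Agent.Helper6.MONO (V3 RV2 kk mm Kp Rb RMb omS zw LNI_mm RJ_one RJ_two DYm DLm)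
open Pool.Agent.Helper6.MONO.QTR (V0 e0)
open Pool.Agent.Helper21.SUP (GS DG gM DG_nx)
open Pool.Agent.Helper21.SUP renaming nx → nxs
open Pool.Agent.Helper39.SLT (T4 ML)
open Pool.Agent.Helper6.PRG (gsF giS tys gsF_giS mem_tys)
open Pool.Agent.Helper6.MTC (FCert NegD DYm_CM DLm_val)
open Pool.Agent.Helper6.MID (oZ kap3 oZ_omS UY_vpq V0_vpq)
open Pool.Agent.Helper39.NCL (WN wS wS_next)
open Pool.Agent.Helper39.NFT (Ch CBT has_ge)
open Pool.Agent.Helper39.D0 (rIv hasD)
open Pool.Agent.Helper48.NCT (IT hasIT hasIT_iff)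
open Pool.Agent.Helper21.KRN (RI PI TProg eT oT rT lT RunIn KResT PtR kap cκ)
open Pool.Agent.Helper57.U2
open Complex ComplexConjugate

/-! ### the orders -/

/-- the order of an edge: known, or a tail -/
inductive Od where
  | kn (N : ℕ)
  | ta

/-- the orders of a label -/
def Od.has : Od → ℕ → Prop
  | Od.kn N, M => M = N ∧ 3 ≤ N
  | Od.ta, M => 10 ≤ M

/-- the order of the edge number `e` -/
def odE (A B C : Od) : ℕ → Od
  | 0 => A
  | 1 => B
  | _ => C

/-- the types of a state whose last star has the order `O` -/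
def Od.ty : Od → List T4
  | Od.kn N => tys N
  | Od.ta => [T4.two, T4.three, T4.oth]

/-- the type whose form is used -/
def Od.cut : Od → T4 → T4
  | Od.kn _, T => T
  | Od.ta, T => if T = T4.full then T4.oth else T

/-- the lengths of the runs to be tested -/
def Od.ms : Od → List ℕ
  | Od.kn N => List.range (N + 1)
  | Od.ta => [2, 3, 4, 5]

/-- the type after a run -/
def Od.nxt : Od → ℕ → T4
  | Od.kn N, m => T4.next N m
  | Od.ta, m => T4.next 10 m

/-- the least length of the next run -/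
def Od.low : Od → T4 → ℕ
  | Od.kn N, T => T.low N
  | Od.ta, T => T.low 10

/-- the order is three -/
def Od.is3 : Od → Bool
  | Od.kn N => N == 3
  | Od.ta => false

theorem Od.has.ge3 {O : Od} {M : ℕ} (h : O.has M) : 3 ≤ M := by
  cases O with
  | kn N => exact h.1 ▸ h.2
  | ta => exact le_trans (by norm_num) (h : 10 ≤ M)

theorem cutO_two (O : Od) : O.cut T4.two = T4.two := by
  cases O with
  | kn N => rfl
  | ta => rfl

theorem cutO_three (O : Od) : O.cut T4.three = T4.three := by
  cases O with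
  | kn N => rfl
  | ta => rfl

theorem cutO_mem {O : Od} {M : ℕ} (h : O.has M) {T : T4} (hT : T.ok M) : O.cut T ∈ O.ty := by
  cases O with
  | kn N =>
    have h1 := h.1
    subst h1
    exact mem_tys hT
  | ta => cases T <;> simp [Od.cut, Od.ty]

theorem lowO {O : Od} {M : ℕ} (h : O.has M) (T : T4) : O.low (O.cut T) ≤ T.low M := by
  cases O with
  | kn N =>
    have h1 := h.1
    subst h1
    exact le_rfl
  | ta =>
    have h1 : 10 ≤ M := h
    cases T with
    | two => exact le_rfl
    | three =>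
      show (if (10 : ℕ) = 3 then 3 else 2) ≤ if M = 3 then 3 else 2
      rw [if_neg (by norm_num), if_neg (by omega)]
    | oth => exact le_rfl
    | full => exact (by norm_num : 2 ≤ 3)

theorem cutO_ne {O : Od} {T X : T4} (hX : X = T4.two ∨ X = T4.three) (h : T ≠ X) :
    O.cut T ≠ X := by
  cases O with
  | kn N => exact h
  | ta =>
    intro e
    rcases hX with rfl | rfl <;> cases T <;> simp [Od.cut] at e h

theorem odE_has {A B C : Od} {p q r : ℕ} (ha : A.has p) (hb : B.has q) (hc : C.has r)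
    (i j : Fin 3) (hij : i ≠ j) : (odE A B C (edN i j)).has (mm p q r i j) := by
  fin_cases i <;> fin_cases j <;>
    first
    | exact absurd rfl hij
    | exact ha
    | exact hb
    | exact hc

/-! ### the runs -/

/-- the run of `m` letters from the state `s`, source form `k'`, target form `k`, is in the
program; `O` the order of the star -/
def hasO (O : Od) (RL : List (List (ℕ × ℕ))) (BE BO : List ℕ) (G : TProg) (s : GS)
    (m k k' : ℕ) : Bool :=
  match O with
  | Od.kn N =>
    if N < 10 then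
      hasRT (if m % 2 = 1 then eT G (giS (nxs s m)) else oT G (giS (nxs s m))) k (RI.ex N m) k'
    else hasD RL G s m k k'
  | Od.ta =>
    if m = 2 then hasRT (oT G (giS (nxs s 2))) k (RI.t2 (edN s.1 s.2.1)) k'
    else if m = 3 then hasRT (eT G (giS (nxs s 3))) k (RI.t3 (edN s.1 s.2.1)) k'
    else if m % 2 = 1 then
      (ivs 0 BO).all fun x => hasRT (eT G (giS (nxs s m))) k (RI.lr (edN s.1 s.2.1) x.1 x.2) k'
    else
      (ivs 0 BE).all fun x => hasRT (oT G (giS (nxs s m))) k (RI.lr (edN s.1 s.2.1) x.1 x.2) k'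

/-- the run test of a class -/
def rnO (A B C : Od) (RL : List (List (ℕ × ℕ))) (BE BO : List ℕ) (G : TProg) (s : GS)
    (m k k' : ℕ) : Bool :=
  hasO (odE A B C (edN s.1 s.2.1)) RL BE BO G s m k k'

/-- the table of `2 ^ 48 R_(m-1)` is right at the edges of known order at least ten -/
def RTO (A B C : Od) (p q r : ℕ) (RL : List (List (ℕ × ℕ))) : Prop :=
  ∀ i j : Fin 3, i ≠ j → ∀ N, odE A B C (edN i j) = Od.kn N → 10 ≤ N →
    ∀ m, 4 ≤ m → m ≤ mm p q r i j →
      ((rIv RL (edN i j) m).1 : ℝ) ≤ 2 ^ 48 * Rb (mm p q r i j) (m - 1) ∧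
        2 ^ 48 * Rb (mm p q r i j) (m - 1) ≤ ((rIv RL (edN i j) m).2 : ℝ) ∧
        (rIv RL (edN i j) m).2 ≤ 2 ^ 50

variable {p q r : ℕ} {A B C : Od} {RL : List (List (ℕ × ℕ))} {BE BO : List ℕ} {G : TProg}

/-- what a run test gives at a point -/
def RunO (p q r : ℕ) (z : ℂ) (K : ℕ → Hm ℝ) (run : GS → ℕ → ℕ → ℕ → Bool) : Prop :=
  ∀ {s : GS}, DG s → ∀ {m : ℕ}, 2 ≤ m → m ≤ mm p q r s.1 s.2.1 → ∀ {k k' : ℕ},
    run s m k k' = true → ∀ v : Fin 3 → ℂ, 0 < ev (K k') v →
      0 < ev (K k) ((RMb p q r s m (zw z)).mulVec v)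

/-- ONE RUN -/
theorem run_ofO (ha : A.has p) (hb : B.has q) (hc : C.has r) (hbr : brOK BE BO = true)
    (hRL : RTO A B C p q r RL) {z : ℂ} (hz : z ≠ 0) (hz1 : z + 1 ≠ 0) {K : ℕ → Hm ℝ}
    (hK : KResT K (kR p q r) z G) : RunO p q r z K (rnO A B C RL BE BO G) := by
  intro s h m hm2 hm k k' hb' v hv
  have hp := ha.ge3
  have hq := hb.ge3
  have hr := hc.ge3
  have hM3 := LNI_mm hp hq hr _ _ h.1
  have hO := odE_has ha hb hc _ _ h.1
  have hT := hRL _ _ h.1
  have hkap : kk p q r s.1 s.2.1 = kap (kR p q r) (edN s.1 s.2.1) :=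
    (kap_edN p q r _ _ h.1).symm
  unfold rnO hasO at hb'
  cases hE : odE A B C (edN s.1 s.2.1) with
  | kn N =>
    rw [hE] at hb' hO hT
    have e := hO.1
    by_cases hN : N < 10
    · simp only [if_pos hN] at hb'
      have hR : RunIn (kR p q r) (RI.ex (mm p q r s.1 s.2.1) m) (kk p q r s.1 s.2.1)
          (Rb (mm p q r s.1 s.2.1) (m - 1)) := ⟨hM3, by omega, hm2, hm, rfl, rfl⟩
      rw [e] at hR
      by_cases hodd : m % 2 = 1
      · rw [if_pos hodd] at hb'
        rw [← e] at hR hb'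
        exact core_odd hz hz1 hK h hodd hb' hR v hv
      · rw [if_neg hodd] at hb'
        rw [← e] at hR hb'
        exact core_even hz hz1 hK h (by omega) hb' hR v hv
    · simp only [if_neg hN] at hb'
      unfold hasD at hb'
      by_cases h2 : m = 2
      · subst h2
        rw [if_pos rfl] at hb'
        exact core_even hz hz1 hK h rfl hb' ⟨hkap, RJ_one _ hM3⟩ v hv
      · rw [if_neg h2] at hb'
        by_cases h3 : m = 3
        · subst h3
          rw [if_pos rfl] at hb'
          exact core_odd hz hz1 hK h rfl hb' ⟨hkap, RJ_two _ hM3⟩ v hv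
        · rw [if_neg h3] at hb'
          obtain ⟨x1, x2, x3⟩ := hT N rfl (by omega) m (by omega) hm
          by_cases hodd : m % 2 = 1
          · rw [if_pos hodd] at hb'
            exact core_odd hz hz1 hK h hodd hb' ⟨hkap, x1, x2, x3⟩ v hv
          · rw [if_neg hodd] at hb'
            exact core_even hz hz1 hK h (by omega) hb' ⟨hkap, x1, x2, x3⟩ v hv
  | ta =>
    rw [hE] at hb' hO
    have h10 : 10 ≤ mm p q r s.1 s.2.1 := hO
    refine run_ofT (BE := BE) (BO := BO) hp hq hr hbr hz hz1 hK h hm2 hm ?_ v hv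
    unfold hasRun
    rw [mm_rep p q r _ _ h.1, if_neg fun h' => by have := rep_lt.1 h'; omega]
    exact hb'

/-! ### the cover -/

/-- all pairs (type, twin index) of a state whose last star has the order `O` -/
def allO (O : Od) (P : T4 → Bool → Bool) : Bool :=
  (O.ty.all fun T => P T false) && (P T4.two true && P T4.three true)

theorem allO_at {O : Od} {M : ℕ} (hO : O.has M) {P : T4 → Bool → Bool} (h : allO O P = true)
    {T : T4} {i : Bool} (hT : T.ok M) (hi : TJ T i) : P (O.cut T) i = true := by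
  unfold allO at h
  rw [Bool.and_eq_true, Bool.and_eq_true, List.all_eq_true] at h
  obtain ⟨h1, h2, h3⟩ := h
  cases i with
  | false => exact h1 _ (cutO_mem hO hT)
  | true =>
    rcases hi rfl with rfl | rfl
    · rw [cutO_two]
      exact h2
    · rw [cutO_three]
      exact h3

/-- the runs of at least four letters -/
def cov4O (kf kr : ℕ → T4 → ℕ) (A B C : Od) (run : GS → ℕ → ℕ → ℕ → Bool) (i : ℕ) : Bool :=
  (odE A B C (edN (gsF i).1 (gsF i).2.1)).ms.all fun m =>
    if 4 ≤ m then allO (odE A B C (edN (gsF i).1 (gsF i).2.2)) fun T j =>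
      run (gsF i) m (kf (giS (nxs (gsF i) m)) ((odE A B C (edN (gsF i).1 (gsF i).2.1)).cut
        ((odE A B C (edN (gsF i).1 (gsF i).2.1)).nxt m))) (kb kf kr j i T) else true

/-- the first run of a block of `x` letters -/
def cov1O (x : ℕ) (X : T4) (kf kr : ℕ → T4 → ℕ) (A B C : Od) (run : GS → ℕ → ℕ → ℕ → Bool)
    (i n : ℕ) : Bool :=
  allO (odE A B C (edN (gsF i).1 (gsF i).2.2)) fun T j =>
    if (odE A B C (edN (gsF i).1 (gsF i).2.2)).low T ≤ x ∧ T ≠ X then
      run (gsF i) x n (kb kf kr j i T) else true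

/-- a wall -/
def covWO (kf kr : ℕ → T4 → ℕ) (A B C : Od) (run : GS → ℕ → ℕ → ℕ → Bool) (il : List IT) (W : WN)
    (i : ℕ) : Bool :=
  cov1O 3 T4.three kf kr A B C run i (kf (giS (nxs (gsF i) 3)) T4.three) &&
    (if W.f = true then
      (if i < 3 then
        incl il W.e (kf i T4.three) && (incl il (kr i T4.three) W.x &&
          (run (gsF i) 3 (kr (giS (nxs (gsF i) 3)) T4.three) W.x &&
            run (gsF i) 3 (kr (giS (nxs (gsF i) 3)) T4.three) W.e))
      else
        run (gsF i) 3 (kr (giS (nxs (gsF i) 3)) T4.three) (kf i T4.three) &&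
          run (gsF i) 3 W.e (kf i T4.three))
    else
      run (gsF i) 3 (kr (giS (nxs (gsF i) 3)) T4.three) (kf i T4.three) &&
        run (gsF i) 3 (kr (giS (nxs (gsF i) 3)) T4.three) (kr i T4.three))

/-- a chain for the runs of `x` letters -/
def covCO (x : ℕ) (X : T4) (kf kr : ℕ → T4 → ℕ) (A B C : Od) (run : GS → ℕ → ℕ → ℕ → Bool)
    (il : List IT) (c : Ch) (i : ℕ) : Bool :=
  cov1O x X kf kr A B C run i (c.fn 0 (giS (nxs (gsF i) x))) &&
    (incl il (kf i X) (c.fn 0 i) &&
      (List.range (c.S + 1)).all fun j =>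
        run (gsF i) x (c.fn (min (j + 1) c.S) (giS (nxs (gsF i) x))) (c.fn j i) &&
          (decide (j = 0 ∧ c.S ≠ 0) || incl il (kr i X) (c.fn j i)))

/-- the reference tests -/
def covRO (kx : ℕ → T4 → ℕ) (O : Od) (G : TProg) (i : ℕ) : Bool :=
  O.ty.all fun T => (decide (T = T4.two) && O.is3) || (rT G i).any fun x => x == kx i T

/-- the tests of the `L` vector -/
def covPO (kx : ℕ → T4 → ℕ) (O : Od) (G : TProg) (i : ℕ) : Bool :=
  if O.is3 = true then (lT G i).any fun x => x == kx i T4.two else true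

/-- the static tests -/
def covTO (kx : ℕ → T4 → ℕ) (O : Od) (l : List ℕ) (i : ℕ) : Bool :=
  O.ty.all fun T => l.any fun k => k == kx i T

/-- the single tests of the forms -/
def statO (kx : ℕ → T4 → ℕ) (A B C : Od) (a b c : Lb) (G : TProg) (sl : List ℕ)
    (le : List LT2) : Bool :=
  (List.range 6).all fun i => covRO kx (odE A B C (edN (gsF i).1 (gsF i).2.2)) G i &&
    (covPO kx (odE A B C (edN (gsF i).1 (gsF i).2.2)) G i &&
      (covTO kx (odE A B C (edN (gsF i).1 (gsF i).2.2)) sl i && covLX kx a b c le i))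

/-- everything except the blocks of two and three letters -/
def modO0 (kf kr : ℕ → T4 → ℕ) (A B C : Od) (a b c : Lb) (RL : List (List (ℕ × ℕ)))
    (BE BO : List ℕ) (G : TProg) (sl : List ℕ) (le : List LT2) : Bool :=
  brOK BE BO && (statO kf A B C a b c G sl le && (statO kr A B C a b c G sl le &&
    (List.range 6).all fun i => cov4O kf kr A B C (rnO A B C RL BE BO G) i))

/-- the three walls -/
def wallO (kf kr : ℕ → T4 → ℕ) (A B C : Od) (W0 W1 W2 : WN) (run : GS → ℕ → ℕ → ℕ → Bool)
    (il : List IT) : Bool :=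
  (List.range 6).all fun i => covWO kf kr A B C run il (wS W0 W1 W2 i) i

/-- a chain at all states -/
def chnO (x : ℕ) (X : T4) (kf kr : ℕ → T4 → ℕ) (A B C : Od) (cx : Ch)
    (run : GS → ℕ → ℕ → ℕ → Bool) (il : List IT) : Bool :=
  (List.range 6).all fun i => covCO x X kf kr A B C run il cx i

/-! ### the forms -/

/-- the number of the form of a state and a type -/
def kO (kx : ℕ → T4 → ℕ) (A B C : Od) (s : GS) (T : T4) : ℕ :=
  kx (giS s) ((odE A B C (edN s.1 s.2.2)).cut T)

/-- the form of a twin state -/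
def KO (kf kr : ℕ → T4 → ℕ) (A B C : Od) (K : ℕ → Hm ℝ) (i : Bool) (s : GS) (T : T4) : Hm ℝ :=
  K (kO (kb kf kr i) A B C s T)

theorem kO_two (kx : ℕ → T4 → ℕ) (A B C : Od) (s : GS) :
    kO kx A B C s T4.two = kx (giS s) T4.two := by
  unfold kO
  rw [cutO_two]

theorem kO_three (kx : ℕ → T4 → ℕ) (A B C : Od) (s : GS) :
    kO kx A B C s T4.three = kx (giS s) T4.three := by
  unfold kO
  rw [cutO_three]

theorem lastO (ha : A.has p) (hb : B.has q) (hc : C.has r) {s : GS} (hs : DG s) :
    (odE A B C (edN s.1 s.2.2)).has (ML p q r s) :=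
  odE_has ha hb hc _ _ (fun e => hs.2.2 e.symm)

variable {kf kr : ℕ → T4 → ℕ} {il : List IT} {run : GS → ℕ → ℕ → ℕ → Bool}

/-- the first runs -/
theorem fst_ofO {x : ℕ} {X : T4} (hX : X = T4.two ∨ X = T4.three) (ha : A.has p) (hb : B.has q)
    (hc : C.has r) {s : GS} (hs : DG s) {n : ℕ}
    (h : cov1O x X kf kr A B C run (giS s) n = true) {T : T4} {i : Bool}
    (hT : T.ok (ML p q r s)) (hi : TJ T i) (hl : T.low (ML p q r s) ≤ x) (hT2 : T ≠ X) :
    run s x n (kO (kb kf kr i) A B C s T) = true := by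
  obtain ⟨e, -⟩ := gsF_giS s hs
  unfold cov1O at h
  rw [e] at h
  have h5 := allO_at (lastO ha hb hc hs) h hT hi
  rw [if_pos ⟨(lowO (lastO ha hb hc hs) T).trans hl, cutO_ne hX hT2⟩] at h5
  exact h5

/-- the tested length -/
def Od.cm : Od → ℕ → ℕ
  | Od.kn _, m => m
  | Od.ta, m => if 4 ≤ m then 4 + m % 2 else m

/-- the runs of at least four letters, edges of known order -/
theorem four_ofO (ha : A.has p) (hb : B.has q) (hc : C.has r) {s : GS} (hs : DG s)
    (h : cov4O kf kr A B C (rnO A B C RL BE BO G) (giS s) = true) {T : T4} {i : Bool}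
    (hT : T.ok (ML p q r s)) (hi : TJ T i) {m : ℕ} (h4 : 4 ≤ m) (hm : m ≤ mm p q r s.1 s.2.1) :
    rnO A B C RL BE BO G s m (kO kf A B C (nxs s m) (T4.next (mm p q r s.1 s.2.1) m))
      (kO (kb kf kr i) A B C s T) = true := by
  obtain ⟨e, -⟩ := gsF_giS s hs
  have hO := odE_has ha hb hc _ _ hs.1
  have hn : edN (nxs s m).1 (nxs s m).2.2 = edN s.1 s.2.1 := by
    obtain ⟨i, j, k⟩ := s
    rcases Nat.mod_two_eq_zero_or_one m with h0 | h0
    · rw [Pool.Agent.Helper21.SUP.nx_even _ m h0]
      fin_cases i <;> fin_cases j <;> rfl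
    · rw [Pool.Agent.Helper21.SUP.nx_odd _ m h0]
  unfold cov4O at h
  rw [e, List.all_eq_true] at h
  unfold kO
  rw [hn]
  cases hE : odE A B C (edN s.1 s.2.1) with
  | kn N =>
    rw [hE] at h hO
    have h5 := h m (List.mem_range.2 (by have := hO.1; omega))
    rw [if_pos h4] at h5
    have h6 := allO_at (lastO ha hb hc hs) h5 hT hi
    rw [hO.1]
    exact h6
  | ta =>
    rw [hE] at h hO
    have h10 : 10 ≤ mm p q r s.1 s.2.1 := hO
    have h5 := h (4 + m % 2) (by
      rcases Nat.mod_two_eq_zero_or_one m with h0 | h0 <;> rw [h0] <;> simp [Od.ms])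
    rw [if_pos (by omega)] at h5
    have h6 := allO_at (lastO ha hb hc hs) h5 hT hi
    have e3 : Od.ta.cut (Od.ta.nxt (4 + m % 2)) = T4.oth := by
      rcases Nat.mod_two_eq_zero_or_one m with h0 | h0 <;> rw [h0] <;> rfl
    have e4 : Od.ta.cut (T4.next (mm p q r s.1 s.2.1) m) = T4.oth := by
      unfold T4.next
      rw [if_neg (by omega), if_neg (by omega)]
      split_ifs <;> rfl
    have e2 : nxs s (4 + m % 2) = nxs s m := nxs_par s (by omega)
    rw [e3, e2] at h6
    rw [e4]
    unfold rnO hasO at h6 ⊢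
    rw [hE] at h6 ⊢
    have a2 : ¬ 4 + m % 2 = 2 := by omega
    have a3 : ¬ 4 + m % 2 = 3 := by omega
    have a4 : ¬ m = 2 := by omega
    have a5 : ¬ m = 3 := by omega
    have a6 : (4 + m % 2) % 2 = m % 2 := by omega
    simp only [if_neg a2, if_neg a3, a6, e2] at h6
    simp only [if_neg a4, if_neg a5]
    exact h6

end Pool.Agent.Helper84.XL
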