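import Pool.Agent.Helper84.XL.A

/-!
Near cells with twin states: classes whose orders are known (exact, also orders at least ten with
thin weights) or tails, mixed. Part 2: the certificates of the points.
-/

set_option autoImplicit false
set_option exponentiation.threshold 4000
noncomputable section
namespace Pool.Agent.Helper84.XL

open Pool.Agent.Helper81.MIT
open Pool.Agent.Helper86.CX hiding gM
open Pool.Agent.Helper86.CT (LT2)
open Pool.Agent.Helper6.MONO (V3 RV2 kk mm Kp Rb RMb omS zw LNI_mm RJ_one RJ_two DYm DLm)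
open Pool.Agent.Helper6.MONO.QTR (V0 e0)
open Pool.Agent.Helper21.SUP (GS DG gM DG_nx)
open Pool.Agent.Helper21.SUP renaming nx → nxs
open Pool.Agent.Helper39.SLT (T4 ML)
open Pool.Agent.Helper6.PRG (gsF giS tys gsF_giS mem_tys)
open Pool.Agent.Helper6.MTC (FCert NegD DYm_CM DLm_val)
open Pool.Agent.Helper6.MID (oZ kap3 oZ_omS UY_vpq V0_vpq)
open Pool.Agent.Helper39.NCL (WN wS wS_next)
open Pool.Agent.Helper39.NFT (Ch CBT has_ge)
open Pool.Agent.Helper39.D0 (rIv hasD chR chR_sound)
open Pool.Agent.Helper48.NCT (IT hasIT hasIT_iff)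
open Pool.Agent.Helper21.KRN (RI PI TProg eT oT rT lT RunIn KResT PtR kap cκ)
open Pool.Agent.Helper57.U2
open Complex ComplexConjugate

variable {p q r : ℕ} {A B C : Od} {RL : List (List (ℕ × ℕ))} {BE BO : List ℕ} {G : TProg}
  {kf kr : ℕ → T4 → ℕ} {il : List IT} {run : GS → ℕ → ℕ → ℕ → Bool}

/-! ### the blocks of two and three letters -/

section

variable {z : ℂ} {K : ℕ → Hm ℝ}

theorem KO_two (i : Bool) (s : GS) : KO kf kr A B C K i s T4.two = K (kb kf kr i (giS s) T4.two) := by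
  show K (kO (kb kf kr i) A B C s T4.two) = _
  rw [kO_two]

theorem KO_three (i : Bool) (s : GS) :
    KO kf kr A B C K i s T4.three = K (kb kf kr i (giS s) T4.three) := by
  show K (kO (kb kf kr i) A B C s T4.three) = _
  rw [kO_three]

/-- THE RUNS OF TWO OR THREE LETTERS THROUGH A CHAIN -/
theorem hxO_of_ch {x : ℕ} {X : T4} (hX : X = T4.two ∨ X = T4.three) (x2 : 2 ≤ x) (x3 : x ≤ 3)
    (ha : A.has p) (hb : B.has q) (hc : C.has r) (hR : RunO p q r z K run) {c : Ch}
    (hcov : ∀ i < 6, covCO x X kf kr A B C run il c i = true)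
    (hI : ∀ x ∈ il, ∀ y ∈ x.s, ∀ v, 0 < ev (K y.k) v → 0 < ev (K x.k) v) :
    HXU p q r (zw z) (KO kf kr A B C K) x X := by
  have hp := ha.ge3
  have hq := hb.ge3
  have hr := hc.ge3
  have h3m : ∀ s, DG s → 3 ≤ mm p q r s.1 s.2.1 := fun s h => LNI_mm hp hq hr _ _ h.1
  have hR' : ∀ {s : GS}, DG s → ∀ {k k' : ℕ}, run s x k k' = true → ∀ v : Fin 3 → ℂ,
      0 < ev (K k') v → 0 < ev (K k) ((RMb p q r s x (zw z)).mulVec v) :=
    fun {s} h {k k'} hb v hv => hR h x2 (x3.trans (h3m s h)) hb v hv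
  have at' : ∀ s, DG s → cov1O x X kf kr A B C run (giS s) (c.fn 0 (giS (nxs s x))) = true ∧
      incl il (kf (giS s) X) (c.fn 0 (giS s)) = true ∧ ∀ j, j ≤ c.S →
        run s x (c.fn (min (j + 1) c.S) (giS (nxs s x))) (c.fn j (giS s)) = true ∧
        ((j = 0 ∧ c.S ≠ 0) ∨ incl il (kr (giS s) X) (c.fn j (giS s)) = true) := by
    intro s hs
    obtain ⟨e, hi⟩ := gsF_giS s hs
    have h3 := hcov (giS s) hi
    unfold covCO at h3
    rw [e, Bool.and_eq_true, Bool.and_eq_true, List.all_eq_true] at h3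
    refine ⟨h3.1, h3.2.1, fun j hj => ?_⟩
    have h5 := h3.2.2 j (List.mem_range.2 (by omega))
    rw [Bool.and_eq_true, Bool.or_eq_true, decide_eq_true_eq] at h5
    exact h5
  have eX : ∀ (i : Bool) (s : GS), KO kf kr A B C K i s X = K (kb kf kr i (giS s) X) := by
    intro i s
    rcases hX with rfl | rfl
    · exact KO_two i s
    · exact KO_three i s
  refine hxU_of_chain (S := c.S) (F := fun j s => K (c.fn j (giS s))) ?_ ?_ ?_ ?_
  · intro s hs T i hT hi hl hT2 v hv
    exact hR' hs (fst_ofO hX ha hb hc hs (at' s hs).1 hT hi hl hT2) v hv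
  · intro s hs j hj v hv
    exact hR' hs ((at' s hs).2.2 j hj).1 v hv
  · intro s hs v hv
    rw [eX]
    exact incl_of hI (at' s hs).2.1 hv
  · intro s hs j hj h1 v hv
    rw [eX]
    rcases ((at' s hs).2.2 j hj).2 with h2 | h2
    · omega
    · exact incl_of hI h2 hv

/-- THE THREE WALLS -/
theorem hxO_of_wall (ha : A.has p) (hb : B.has q) (hc : C.has r) (hR : RunO p q r z K run)
    {W0 W1 W2 : WN} (hcov : ∀ i < 6, covWO kf kr A B C run il (wS W0 W1 W2 i) i = true)
    (hI : ∀ x ∈ il, ∀ y ∈ x.s, ∀ v, 0 < ev (K y.k) v → 0 < ev (K x.k) v)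
    (hfam : ∀ s, DG s → giS s < 3 → (wS W0 W1 W2 (giS s)).f = true → ∀ m : ℕ, ∀ v,
      0 < ev (K (wS W0 W1 W2 (giS s)).e) v → 0 < ev (K (wS W0 W1 W2 (giS s)).x)
        ((gM (RMb p q r) s (List.replicate 2 3) (zw z) ^ (m + 1)).mulVec v)) :
    HXU p q r (zw z) (KO kf kr A B C K) 3 T4.three := by
  have hp := ha.ge3
  have hq := hb.ge3
  have hr := hc.ge3
  have h3m : ∀ s, DG s → 3 ≤ mm p q r s.1 s.2.1 := fun s h => LNI_mm hp hq hr _ _ h.1
  have hR' : ∀ {s : GS}, DG s → ∀ {k k' : ℕ}, run s 3 k k' = true → ∀ v : Fin 3 → ℂ,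
      0 < ev (K k') v → 0 < ev (K k) ((RMb p q r s 3 (zw z)).mulVec v) :=
    fun {s} h {k k'} hb v hv => hR h (by norm_num) (h3m s h) hb v hv
  have at' : ∀ s, DG s → covWO kf kr A B C run il (wS W0 W1 W2 (giS s)) (giS s) = true :=
    fun s hs => hcov _ (gsF_giS s hs).2
  have eF : ∀ s, KO kf kr A B C K false s T4.three = K (kf (giS s) T4.three) :=
    fun s => KO_three false s
  have eT : ∀ s, KO kf kr A B C K true s T4.three = K (kr (giS s) T4.three) :=
    fun s => KO_three true s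
  refine hxU_of ?_ (WallU.rep (f := fun s => (wS W0 W1 W2 (giS s)).f)
    (E := fun s => K (wS W0 W1 W2 (giS s)).e) (Z := fun s => K (wS W0 W1 W2 (giS s)).x) ?_)
  · intro s hs T i hT hi hl hT2 v hv
    have h := at' s hs
    unfold covWO at h
    rw [Bool.and_eq_true, (gsF_giS s hs).1] at h
    rw [eF]
    exact hR' hs (fst_ofO (Or.inr rfl) ha hb hc hs h.1 hT hi hl hT2) v hv
  · have wf : ∀ s, DG s → (wS W0 W1 W2 (giS s)).f = true → giS s < 3 →
        incl il (wS W0 W1 W2 (giS s)).e (kf (giS s) T4.three) = true ∧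
        incl il (kr (giS s) T4.three) (wS W0 W1 W2 (giS s)).x = true ∧
        run s 3 (kr (giS (nxs s 3)) T4.three) (wS W0 W1 W2 (giS s)).x = true ∧
        run s 3 (kr (giS (nxs s 3)) T4.three) (wS W0 W1 W2 (giS s)).e = true := by
      intro s hs hf hb
      have h := at' s hs
      unfold covWO at h
      rw [(gsF_giS s hs).1, if_pos hf, if_pos hb] at h
      simp only [Bool.and_eq_true] at h
      exact h.2
    have wn : ∀ s, DG s → (wS W0 W1 W2 (giS s)).f = true → ¬ giS s < 3 →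
        run s 3 (kr (giS (nxs s 3)) T4.three) (kf (giS s) T4.three) = true ∧
        run s 3 (wS W0 W1 W2 (giS s)).e (kf (giS s) T4.three) = true := by
      intro s hs hf hb
      have h := at' s hs
      unfold covWO at h
      rw [(gsF_giS s hs).1, if_pos hf, if_neg hb] at h
      simp only [Bool.and_eq_true] at h
      exact h.2
    have ws : ∀ s, DG s → (wS W0 W1 W2 (giS s)).f = false →
        run s 3 (kr (giS (nxs s 3)) T4.three) (kf (giS s) T4.three) = true ∧
        run s 3 (kr (giS (nxs s 3)) T4.three) (kr (giS s) T4.three) = true := by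
      intro s hs hf
      have h := at' s hs
      unfold covWO at h
      rw [(gsF_giS s hs).1, if_neg (by rw [hf]; decide)] at h
      simp only [Bool.and_eq_true] at h
      exact h.2
    refine ⟨?_, ?_, ?_, ?_, ?_, ?_, ?_, ?_⟩
    · intro s hs
      rw [wS_next s hs]
    · intro s hs hf v hv
      rw [eF] at hv
      rw [eT]
      exact hR' hs (ws s hs hf).1 v hv
    · intro s hs hf v hv
      rw [eT] at hv
      rw [eT]
      exact hR' hs (ws s hs hf).2 v hv
    · intro s hs hf hb v hv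
      rw [eF] at hv
      exact incl_of hI (wf s hs hf hb).1 hv
    · intro s hs hf hb v hv
      rw [eF] at hv
      rw [eT]
      refine ⟨hR' hs (wn s hs hf hb).1 v hv, ?_⟩
      rw [wS_next s hs]
      exact hR' hs (wn s hs hf hb).2 v hv
    · intro s hs hf hb v hv
      rw [eT, eT]
      exact ⟨incl_of hI (wf s hs hf hb).2.1 hv, hR' hs (wf s hs hf hb).2.2.1 v hv⟩
    · intro s hs hf hb v hv
      rw [eT]
      exact hR' hs (wf s hs hf hb).2.2.2 v hv
    · intro s hs hf hb m v hv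
      exact hfam s hs hb hf m v hv

end

/-! ### the single tests -/

theorem is3_iff {O : Od} {M : ℕ} (h : O.has M) : O.is3 = true ↔ M = 3 := by
  cases O with
  | kn N =>
    have h1 := h.1
    subst h1
    show (M == 3) = true ↔ _
    rw [beq_iff_eq]
  | ta =>
    have h1 : 10 ≤ M := h
    constructor
    · intro h2
      exact absurd h2 (by decide)
    · intro h2
      omega

section

variable {z : ℂ} {K : ℕ → Hm ℝ} {kx : ℕ → T4 → ℕ} {sl : List ℕ} {le : List LT2} {a b c : Lb}

/-- the parts of `statO` at a state -/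
theorem statO_at (h : statO kx A B C a b c G sl le = true) {s : GS} (hs : DG s) :
    covRO kx (odE A B C (edN s.1 s.2.2)) G (giS s) = true ∧
    covPO kx (odE A B C (edN s.1 s.2.2)) G (giS s) = true ∧
    covTO kx (odE A B C (edN s.1 s.2.2)) sl (giS s) = true ∧
    covLX kx a b c le (giS s) = true := by
  obtain ⟨e, hi⟩ := gsF_giS s hs
  unfold statO at h
  rw [List.all_eq_true] at h
  have h3 := h (giS s) (List.mem_range.2 hi)
  rw [e] at h3
  simpa only [Bool.and_eq_true] using h3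

/-- everything of the certificate except the runs -/
theorem statO_fcert (oa : A.has p) (ob : B.has q) (oc : C.has r) (ha : a.has p) (hb : b.has q)
    (hc : c.has r) (hz : z ≠ 0) (hz1 : z + 1 ≠ 0) (hP : PtR K (kR p q r) z G sl le)
    (h : statO kx A B C a b c G sl le = true) :
    FCert V0 e0 p q r (1 / 2 ^ 10) (2 ^ 12) (zw z) (fun s T => K (kO kx A B C s T)) := by
  have hom := fun s hs => oZ_omS (p := p) (q := q) (r := r) hz hz1 s hs
  have hK := hP.res
  have rT' : ∀ s, DG s → ∀ T : T4, T.ok (ML p q r s) → (T ≠ T4.two ∨ 4 ≤ ML p q r s) →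
      kO kx A B C s T ∈ rT G (giS s) := by
    intro s hs T hT hT2
    have h1 := (statO_at h hs).1
    unfold covRO at h1
    rw [List.all_eq_true] at h1
    have h4 := h1 _ (cutO_mem (lastO oa ob oc hs) hT)
    rw [Bool.or_eq_true] at h4
    rcases h4 with h4 | h4
    · exfalso
      rw [Bool.and_eq_true, decide_eq_true_eq, is3_iff (lastO oa ob oc hs)] at h4
      obtain ⟨h5, h6⟩ := h4
      rcases hT2 with h8 | h8
      · exact cutO_ne (Or.inl rfl) h8 h5
      · omega
    · rw [List.any_eq_true] at h4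
      obtain ⟨x, hx, h6⟩ := h4
      rw [beq_iff_eq] at h6
      unfold kO
      rwa [← h6]
  have tT' : ∀ s, DG s → ∀ T : T4, T.ok (ML p q r s) → kO kx A B C s T ∈ sl := by
    intro s hs T hT
    have h1 := (statO_at h hs).2.2.1
    unfold covTO at h1
    rw [List.all_eq_true] at h1
    have h4 := h1 _ (cutO_mem (lastO oa ob oc hs) hT)
    rw [List.any_eq_true] at h4
    obtain ⟨x, hx, h6⟩ := h4
    rw [beq_iff_eq] at h6
    unfold kO
    rwa [← h6]
  have lT' : ∀ s, DG s → ML p q r s = 3 → kO kx A B C s T4.two ∈ lT G (giS s) := by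
    intro s hs h3
    have h4 := (statO_at h hs).2.1
    unfold covPO at h4
    rw [if_pos ((is3_iff (lastO oa ob oc hs)).2 h3), List.any_eq_true] at h4
    obtain ⟨x, hx, h6⟩ := h4
    rw [beq_iff_eq] at h6
    rw [kO_two]
    rwa [← h6]
  have slit : ∀ s, DG s → SlitOK (K (kO kx A B C s T4.two)) (kk p q r s.1 s.2.1) ∧
      SlitOK (K (kO kx A B C s T4.three)) (kk p q r s.1 s.2.1) := by
    intro s hs
    have h3 := (statO_at h hs).2.2.2
    unfold covLX at h3
    rw [(gsF_giS s hs).1, Bool.and_eq_true] at h3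
    have key : ∀ k, hasLT (lbE a b c (edN s.1 s.2.1)) le k = true →
        SlitOK (K k) (kk p q r s.1 s.2.1) := by
      intro k hk
      unfold hasLT at hk
      rw [List.any_eq_true] at hk
      obtain ⟨x, hx, h6⟩ := hk
      rw [Bool.and_eq_true, beq_iff_eq] at h6
      rw [← h6.1]
      exact slitT_pt hP ha hb hc x hx _ _ hs.1 h6.2
    rw [kO_two, kO_three]
    exact ⟨key _ h3.1, key _ h3.2⟩
  refine ⟨fun s h T hT => hP.neg _ (tT' s h T hT), fun s h T hT => (hP.bd _).1,
    fun s h T hT => (hP.bd _).2.1, fun s h T hT => (hP.bd _).2.2, ?_, ?_, ?_, ?_, ?_⟩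
  · intro s h T hT hT2
    have h1 := hK.r _ (gsF_giS s h).2 _ (rT' s h T hT (Or.inl hT2)) _ (Or.inl rfl)
    rw [cκ_kR] at h1
    rw [V0_vpq, DYm_CM, ev_CK, hom s h]
    exact h1
  · intro s hs h3
    have h1 := hK.l _ (gsF_giS s hs).2 _ (lT' s hs h3)
    rw [cκ_kR] at h1
    rw [DLm_val, oZ_omS (p := p) (q := q) (r := r) hz hz1 s hs]
    have e : (![1, ((V0.c / 2 : ℝ) : ℂ) + ((V0.d (kk p q r s.1 s.2.2) - V0.c : ℝ) : ℂ) *
        oZ (kap3 p q r) z (giS s), ((V0.c / 2 : ℝ) : ℂ) - (V0.c : ℂ) *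
        oZ (kap3 p q r) z (giS s)] : Fin 3 → ℂ) =
        ![1, 1 / 5 + oZ (kap3 p q r) z (giS s) / 10, 1 / 5 - 2 * oZ (kap3 p q r) z (giS s) / 5] := by
      funext j
      fin_cases j
      · rfl
      · show ((V0.c / 2 : ℝ) : ℂ) + ((V0.d (kk p q r s.1 s.2.2) - V0.c : ℝ) : ℂ) *
          oZ (kap3 p q r) z (giS s) = 1 / 5 + oZ (kap3 p q r) z (giS s) / 10
        unfold V0
        push_cast
        ring
      · show ((V0.c / 2 : ℝ) : ℂ) - (V0.c : ℂ) * oZ (kap3 p q r) z (giS s) =
          1 / 5 - 2 * oZ (kap3 p q r) z (giS s) / 5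
        unfold V0
        push_cast
        ring
    rw [e]
    exact h1
  · intro s h h4 i
    have key : ∀ T : T4, T.ok (ML p q r s) → 0 < ev (K (kO kx A B C s T))
        ((DYm (omS p q r s (zw z))).mulVec (Pool.Agent.Helper6.MONO.SV.UY V0.al V0.be e0 i)) := by
      intro T hT
      have h1 := hK.r _ (gsF_giS s h).2 _ (rT' s h T hT (Or.inr h4)) _ (UY_vpq i)
      rw [cκ_kR] at h1
      rw [DYm_CM, ev_CK, hom s h]
      exact h1
    exact ⟨key T4.two trivial, key T4.three trivial⟩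
  · intro s h
    exact (slit s h).2
  · intro s h
    exact (slit s h).1

theorem modO0_br (h : modO0 kf kr A B C a b c RL BE BO G sl le = true) : brOK BE BO = true := by
  unfold modO0 at h
  rw [Bool.and_eq_true] at h
  exact h.1

/-- THE CERTIFICATE OF A POINT from the blocks of two and three letters -/
theorem tcertO_pt (oa : A.has p) (ob : B.has q) (oc : C.has r) (ha : a.has p) (hb : b.has q)
    (hc : c.has r) (hRL : RTO A B C p q r RL) (hz : z ≠ 0) (hz1 : z + 1 ≠ 0)
    (hP : PtR K (kR p q r) z G sl le) (hm : modO0 kf kr A B C a b c RL BE BO G sl le = true)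
    (hA : HXU p q r (zw z) (KO kf kr A B C K) 3 T4.three)
    (hB : HXU p q r (zw z) (KO kf kr A B C K) 2 T4.two) :
    TCertU V0 e0 p q r CBT (zw z) (RKU (KO kf kr A B C K)) := by
  have hbr := modO0_br hm
  unfold modO0 at hm
  simp only [Bool.and_eq_true] at hm
  obtain ⟨-, hf, hr', h4⟩ := hm
  rw [List.all_eq_true] at h4
  have hF : ∀ i, FCert V0 e0 p q r (1 / 2 ^ 10) (2 ^ 12) (zw z) (KO kf kr A B C K i) := by
    intro i
    cases i with
    | false => exact statO_fcert oa ob oc ha hb hc hz hz1 hP hf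
    | true => exact statO_fcert oa ob oc ha hb hc hz hz1 hP hr'
  refine tcertU_of (by positivity) hF (typ_certU oa.ge3 ob.ge3 oc.ge3 ?_ ?_ ?_)
  · intro s hs T i hT hi m h4' hm v hv
    exact run_ofO oa ob oc hbr hRL hz hz1 hP.res hs (by omega) hm
      (four_ofO oa ob oc hs (h4 _ (List.mem_range.2 (gsF_giS s hs).2)) hT hi h4' hm) v hv
  · intro s hs T i hT hi hT3 k v hv
    exact hA s hs T i hT hi (low_le3 _ _) hT3 k v hv
  · intro s hs T i hT hi hl hT2 k v hv
    exact hB s hs T i hT hi hl hT2 k v hv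

/-- walls (families or single runs) and a chain for the runs of two letters -/
def modOC (kf kr : ℕ → T4 → ℕ) (A B C : Od) (a b c : Lb) (W0 W1 W2 : WN) (cB : Ch)
    (RL : List (List (ℕ × ℕ))) (BE BO : List ℕ) (G : TProg) (il : List IT) (sl : List ℕ)
    (le : List LT2) : Bool :=
  modO0 kf kr A B C a b c RL BE BO G sl le &&
    (wallO kf kr A B C W0 W1 W2 (rnO A B C RL BE BO G) il &&
      chnO 2 T4.two kf kr A B C cB (rnO A B C RL BE BO G) il)

/-- two chains -/
def modOCC (kf kr : ℕ → T4 → ℕ) (A B C : Od) (a b c : Lb) (cA cB : Ch)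
    (RL : List (List (ℕ × ℕ))) (BE BO : List ℕ) (G : TProg) (il : List IT) (sl : List ℕ)
    (le : List LT2) : Bool :=
  modO0 kf kr A B C a b c RL BE BO G sl le &&
    (chnO 3 T4.three kf kr A B C cA (rnO A B C RL BE BO G) il &&
      chnO 2 T4.two kf kr A B C cB (rnO A B C RL BE BO G) il)

theorem chnO_all {x : ℕ} {X : T4} {cx : Ch} (h : chnO x X kf kr A B C cx run il = true) :
    ∀ i < 6, covCO x X kf kr A B C run il cx i = true := by
  unfold chnO at h
  rw [List.all_eq_true] at h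
  exact fun i hi => h i (List.mem_range.2 hi)

theorem wallO_all {W0 W1 W2 : WN} (h : wallO kf kr A B C W0 W1 W2 run il = true) :
    ∀ i < 6, covWO kf kr A B C run il (wS W0 W1 W2 i) i = true := by
  unfold wallO at h
  rw [List.all_eq_true] at h
  exact fun i hi => h i (List.mem_range.2 hi)

/-- walls and a chain -/
theorem ptO_C (oa : A.has p) (ob : B.has q) (oc : C.has r) (ha : a.has p) (hb : b.has q)
    (hc : c.has r) (hRL : RTO A B C p q r RL) {W0 W1 W2 : WN} {cB : Ch}
    (hm : modOC kf kr A B C a b c W0 W1 W2 cB RL BE BO G il sl le = true) :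
    PtU p q r G sl le il W0 W1 W2 := by
  intro z hz hz1 K hP hI hfam
  unfold modOC at hm
  simp only [Bool.and_eq_true] at hm
  obtain ⟨h0, hW, hC⟩ := hm
  have hR : RunO p q r z K (rnO A B C RL BE BO G) :=
    run_ofO oa ob oc (modO0_br h0) hRL hz hz1 hP.res
  exact ⟨_, tcertO_pt oa ob oc ha hb hc hRL hz hz1 hP h0
    (hxO_of_wall oa ob oc hR (wallO_all hW) hI hfam)
    (hxO_of_ch (Or.inl rfl) le_rfl (by norm_num) oa ob oc hR (chnO_all hC) hI)⟩

/-- two chains -/
theorem ptO_CC (oa : A.has p) (ob : B.has q) (oc : C.has r) (ha : a.has p) (hb : b.has q)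
    (hc : c.has r) (hRL : RTO A B C p q r RL) {W0 W1 W2 : WN} {cA cB : Ch}
    (hm : modOCC kf kr A B C a b c cA cB RL BE BO G il sl le = true) :
    PtU p q r G sl le il W0 W1 W2 := by
  intro z hz hz1 K hP hI _
  unfold modOCC at hm
  simp only [Bool.and_eq_true] at hm
  obtain ⟨h0, hA, hC⟩ := hm
  have hR : RunO p q r z K (rnO A B C RL BE BO G) :=
    run_ofO oa ob oc (modO0_br h0) hRL hz hz1 hP.res
  exact ⟨_, tcertO_pt oa ob oc ha hb hc hRL hz hz1 hP h0
    (hxO_of_ch (Or.inr rfl) (by norm_num) le_rfl oa ob oc hR (chnO_all hA) hI)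
    (hxO_of_ch (Or.inl rfl) le_rfl (by norm_num) oa ob oc hR (chnO_all hC) hI)⟩

end

/-! ### the tables of `R_m` -/

/-- the table of an edge; only known orders at least ten with a thin weight have one -/
def rlO1 (O : Od) (B : Lb) (l : List (ℕ × ℕ)) : Bool :=
  match O with
  | Od.ta => true
  | Od.kn N => if N < 10 then true else
    match B with
    | Lb.ex _ => false
    | Lb.tl lo hi => chR lo hi N l

/-- the three tables -/
def rlO (A B C : Od) (a b c : Lb) (RL : List (List (ℕ × ℕ))) : Bool :=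
  rlO1 A a (RL.getD 0 []) && (rlO1 B b (RL.getD 1 []) && rlO1 C c (RL.getD 2 []))

theorem rlO1_ok {O : Od} {B : Lb} {M : ℕ} {l : List (ℕ × ℕ)} (h : rlO1 O B l = true)
    (hO : O.has M) (hB : B.has M) (N : ℕ) (hN : O = Od.kn N) (h10 : 10 ≤ N) :
    ∀ m, 4 ≤ m → m ≤ M → ((l.getD (m - 4) (0, 0)).1 : ℝ) ≤ 2 ^ 48 * Rb M (m - 1) ∧
      2 ^ 48 * Rb M (m - 1) ≤ ((l.getD (m - 4) (0, 0)).2 : ℝ) ∧
      (l.getD (m - 4) (0, 0)).2 ≤ 2 ^ 50 := by
  subst hN
  have e := hO.1
  subst e
  unfold rlO1 at h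
  simp only [if_neg (by omega : ¬ M < 10)] at h
  cases B with
  | ex N => exact absurd h (by simp)
  | tl lo hi =>
    obtain ⟨-, h1, h2⟩ := hB
    intro m h4 hm
    have h5 := chR_sound h10 h1 h2 (l := l) h (m - 1) (by omega) (by omega)
    have e : m - 1 - 3 = m - 4 := by omega
    rwa [e] at h5

theorem rlO_ok {a b c : Lb} (oa : A.has p) (ob : B.has q) (oc : C.has r) (ha : a.has p)
    (hb : b.has q) (hc : c.has r) (h : rlO A B C a b c RL = true) : RTO A B C p q r RL := by
  unfold rlO at h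
  simp only [Bool.and_eq_true] at h
  obtain ⟨h1, h2, h3⟩ := h
  have a2 := rlO1_ok h1 oa ha
  have b2 := rlO1_ok h2 ob hb
  have c2 := rlO1_ok h3 oc hc
  intro i j hij N hN h10 m h4 hm
  fin_cases i <;> fin_cases j
  · exact absurd rfl hij
  · exact a2 N hN h10 m h4 hm
  · exact c2 N hN h10 m h4 hm
  · exact a2 N hN h10 m h4 hm
  · exact absurd rfl hij
  · exact b2 N hN h10 m h4 hm
  · exact c2 N hN h10 m h4 hm
  · exact b2 N hN h10 m h4 hm
  · exact absurd rfl hij

end Pool.Agent.Helper84.XL
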