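import Pool.Agent.Helper84.XL.C
import Pool.Agent.Helper55.XL.BO

/-!
Near cells with twin states: classes whose orders are known (exact, also orders at least ten with
thin weights) or tails, mixed. Part 4: the theorems of the modules with tests of type B (a line
given by a quadratic polynomial of the weight of the tail, a constant line).
-/

set_option autoImplicit false
set_option exponentiation.threshold 4000
noncomputable section
namespace Pool.Agent.Helper84.XL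

open Pool.Agent.Helper81.MIT
open Pool.Agent.Helper86.CX (Hm P9 VR ev Cx andB)
open Pool.Agent.Helper86.CT (LT2 Mo Mc Mq Sv Vx Cls Prog CellT Rw chkDT mk addM uM zM Alg mkCls
  clsOK)
open Pool.Agent.Helper90.C75 (Vt)
open Pool.Agent.Helper86.C75 (Z)
open Pool.Agent.Helper90.KMO (zv)
open Pool.Agent.Helper6.MONO (fB Thr)
open Pool.Agent.Helper39.NCL (WN wS NA)
open Pool.Agent.Helper39.NFT (Ch CBT modXE cX cld_E)
open Pool.Agent.Helper39.SLT (T4 ML)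
open Pool.Agent.Helper21.KRN (TProg PtR XM expand xOK)
open Pool.Agent.Helper21.KTE (MZ KS wfK CLD sideT)
open Pool.Agent.Helper48.NCT (IT FTT NDT ON)
open Pool.Agent.Helper57.KNB (FDT FamTOK NBT NAB BXT BXOK chkPNB sideLB)
open Pool.Agent.Helper57.U2 (TCellU)
open Pool.Agent.Helper55.U2
open Pool.Agent.Helper55.XL (nearU_TBG)
open Complex ComplexConjugate

variable {p q r : ℕ} {G : TProg} {kf kr : ℕ → T4 → ℕ} {il : List IT}

section

variable {α β P v γ : Type} {D : ℕ} {lC : α → Vt (D + 1) → Cx} {lf : α → Vt (D + 1) → ℂ}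
  {mf : (ℕ → ℝ) → β → (ℕ → ℝ) → ℝ} {lp : P → Vt (D + 1) → P9} {lv : v → Vt (D + 1) → VR}
  {lg : γ → Vt (D + 1) → ℕ} {Sa : α → List Bool → Prop} {Sp : P → List Bool → Prop}
  {Sv' : v → List Bool → Prop} {Sg : γ → List Bool → Prop} {M : Mc α β P v γ}
  {S : Sv P} {W : Vx β} {Y : ℕ → ℕ → α} {qd : ℕ → Cx → Cx → Cx → α} {rt : α → Bool}

/-- a line given by a quadratic polynomial, tests of type B -/
theorem nearO_QB {X : XM α v}
    (hZ : MZ D lC lf mf lp lv lg Sa Sp Sv' Sg M X.Q X.c X.r S W Y qd rt) {ONE : β}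
    (h1 : ON mf ONE) {F : FTT α β (FDT β)} (hF : FamTOK (D + 1) lf mf F) {FB : BXT α β}
    (hFB : BXOK (D + 1) lf mf FB) {a b c : Lb} (ha : a.has p) (hb : b.has q) (hc : c.has r)
    {s0 s1 : KS} {lo hi n : ℕ} {XA XB XC : Z}
    (hx : modXO M rt qd D X XA XB XC n s0 s1 lo hi a b c = true) (e0 : X.k0 = s0.mo M.A qd)
    (e1 : X.k1 = s1.mo M.A qd) (e2 : X.k2 = (KS.T 0 lo hi).mo M.A qd) {x0 : ℝ}
    (hX : XH XA XB XC lo hi n r x0) (hT : Thr p q r x0) (tB : fB p q r x0 = 0)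
    {W0 W1 W2 : WN} {sl : List ℕ} {le : List LT2}
    (hm : HCert p q r (idxB kf kr) W0 W1 W2 G il sl le)
    {f0 f1 f2 : Bool} (g0 : f0 = W0.f) (g1 : f1 = W1.f) (g2 : f2 = W2.f)
    {l : List (NBT α β (FDT β))} (hl : l ≠ []) {As : List NAB}
    (hs : sideLB (sideNBU kf kr a b c W0 W1 W2 (sideT W le)) l As = true) {y e : ℕ}
    (H : chkPNB M S W Y F FB f0 f1 f2 X.k0 X.k1 X.k2 (mkCls M.A X.k0 X.k1 X.k2) (expand X G)
      (qM M.A qd XA XB XC n) sl le ONE il e l y = true) :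
    TCellU p q r x0 ((y : ℝ) / 2 ^ 48) ((e : ℝ) / 2 ^ 48) :=
  nearU_TBG hZ h1 hF hFB ha hb hc (cld_O (X := X) hZ ha hb hc hx e0 e1 e2 hX) hT tB hm g0 g1 g2
    hl hs H

/-- a constant line, tests of type B -/
theorem nearO_EB {X : XM α v}
    (hZ : MZ D lC lf mf lp lv lg Sa Sp Sv' Sg M X.Q X.c X.r S W Y qd rt) {ONE : β}
    (h1 : ON mf ONE) {F : FTT α β (FDT β)} (hF : FamTOK (D + 1) lf mf F) {FB : BXT α β}
    (hFB : BXOK (D + 1) lf mf FB) {a b c : Lb} (ha : a.has p) (hb : b.has q) (hc : c.has r)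
    {s0 s1 s2 : KS} {Xz : Z} {n : ℕ} (hx : modXE M rt D X Xz n s0 s1 s2 a b c = true)
    (e0 : X.k0 = s0.mo M.A qd) (e1 : X.k1 = s1.mo M.A qd) (e2 : X.k2 = s2.mo M.A qd) {x0 : ℝ}
    (hX : |2 ^ 48 * x0 - (zv Xz : ℝ)| ≤ (n : ℝ)) (hT : Thr p q r x0) (tB : fB p q r x0 = 0)
    {W0 W1 W2 : WN} {sl : List ℕ} {le : List LT2}
    (hm : HCert p q r (idxB kf kr) W0 W1 W2 G il sl le)
    {f0 f1 f2 : Bool} (g0 : f0 = W0.f) (g1 : f1 = W1.f) (g2 : f2 = W2.f)
    {l : List (NBT α β (FDT β))} (hl : l ≠ []) {As : List NAB}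
    (hs : sideLB (sideNBU kf kr a b c W0 W1 W2 (sideT W le)) l As = true) {y e : ℕ}
    (H : chkPNB M S W Y F FB f0 f1 f2 X.k0 X.k1 X.k2 (mkCls M.A X.k0 X.k1 X.k2) (expand X G)
      (cX M.A Xz n) sl le ONE il e l y = true) :
    TCellU p q r x0 ((y : ℝ) / 2 ^ 48) ((e : ℝ) / 2 ^ 48) :=
  nearU_TBG hZ h1 hF hFB ha hb hc (cld_E (X := X) hZ ha hb hc hx e0 e1 e2 hX) hT tB hm g0 g1 g2
    hl hs H

end

end Pool.Agent.Helper84.XL
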