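import Pool.Agent.Helper39.D0.D4
import Pool.Agent.Helper84.XL.N

/-!
Near cells of classes of three known orders `≥ 10` with thin labels, tests of type B without the
hypothesis `fB = 0` (no border cells).
-/

set_option autoImplicit false
set_option exponentiation.threshold 4000
noncomputable section
namespace Pool.Agent.Helper84.XL

open Pool.Agent.Helper81.MIT
open Pool.Agent.Helper86.CX (Hm P9 VR ev Cx andB)
open Pool.Agent.Helper86.CT (LT2 Mo Mc Mq Sv Vx Cls Prog CellT Rw chkDT mk addM uM zM Alg mkCls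
  clsOK)
open Pool.Agent.Helper90.C75 (Vt)
open Pool.Agent.Helper86.C75 (Z)
open Pool.Agent.Helper90.KMO (zv)
open Pool.Agent.Helper90.KMT (PT TOK KTab CLT)
open Pool.Agent.Helper6.MONO (V3 RV2 TCert kk mm RMb zw Kp xA omS sD Thr)
open Pool.Agent.Helper6.MONO.QTR (V0 e0 TCell tcell_of_z)
open Pool.Agent.Helper6.MID
open Pool.Agent.Helper6.PIE (z_ne)
open Pool.Agent.Helper6.PRG (giS)
open Pool.Agent.Helper21.SUP (GS DG gM)
open Pool.Agent.Helper21.SUP renaming nx → nxs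
open Pool.Agent.Helper21.KCE (andB_tt)
open Pool.Agent.Helper39.NCL (WN wS NA zw_ne)
open Pool.Agent.Helper39.SLT (T4 ML)
open Pool.Agent.Helper39.NFT
open Pool.Agent.Helper39.XP (expandX chkDTX_pt)
open Pool.Agent.Helper21.KRN (TProg PtR cκ NZ XM expand)
open Pool.Agent.Helper21.KTE (MZ KS CLD chkDT_pt sideT)
open Pool.Agent.Helper48.NCT (IT FTT NDT chkNT chkPNT pcNT chkIT_pos ON)
open Pool.Agent.Helper57.KNB (FDT FamTOK BND AB sideB BXT NBT NAB CAllX chkNB chkPNB pcNB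
  pcNB_tcell covDT sideLB sideLB_mem)
open Pool.Agent.Helper39.D0
open Complex ComplexConjugate

variable {p q r : ℕ}

section

variable {α β P v γ : Type} {D : ℕ} {lC : α → Vt D → Cx} {lf : α → Vt D → ℂ}
  {mf : (ℕ → ℝ) → β → (ℕ → ℝ) → ℝ} {lp : P → Vt D → P9} {lv : v → Vt D → VR}
  {lg : γ → Vt D → ℕ} {Sp : P → List Bool → Prop} {Sv' : v → List Bool → Prop}
  {Sg : γ → List Bool → Prop} {M : Mc α β P v γ}

/-- A LIST OF NEAR CELLS WITH B TESTS, any certificate of the points -/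
theorem list_NYN (hM : Pool.Agent.Helper17.KPT.MK D lC lf mf lp lv lg Sp Sv' Sg M)
    (hn : ∀ (f : ℕ → ℝ) (T : β) (t : ℕ → ℝ), PT D t → (∀ x, 0 ≤ f x) → 0 ≤ mf f T t)
    {ONE : β} (h1 : ON mf ONE) {F : FTT α β (FDT β)} (hF : FamTOK D lf mf F) {FB : BXT α β}
    (hFB : BXON D lf mf FB) (hp : 3 ≤ p) (hq : 3 ≤ q) (hr : 3 ≤ r)
    {x0 : ℝ} (x1 : -2 < x0) (x2 : x0 ≤ 2)
    (t1 : xA p q r ≤ x0) (t2 : xA q r p ≤ x0) (t3 : xA r p q ≤ x0)
    {W0 W1 W2 : WN} {G : TProg} {il : List IT} {sl : List ℕ}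
    {le : List LT2} {idx : GS → T4 → ℕ} (hPt : PtY idx p q r G sl le il W0 W1 W2)
    {S : Sv P} {W : Vx β} {Y : ℕ → ℕ → α} {k0 k1 k2 : Mo α} {C : Cls α} {Ge : Prog v}
    {X : Mo α} {f0 f1 f2 : Bool} (g0 : f0 = W0.f) (g1 : f1 = W1.f)
    (g2 : f2 = W2.f) {sc : CellT α β → Bool} {l : List (NBT α β (FDT β))} (hl : l ≠ [])
    {As : List NAB} (hs : sideLB (sideNBX idx p q r W0 W1 W2 sc) l As = true)
    (hD : ∀ d : CellT α β, sc d = true → chkDT M S W Y C Ge X sl le d = true →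
      CAllX D lf mf M.A p q r x0 G sl le k0 k1 k2 C X
        (addM M.A X (mk M.A (Y d.ya d.yb) (nat_lit 0))) d) {y e : ℕ}
    (H : chkPNB M S W Y F FB f0 f1 f2 k0 k1 k2 C Ge X sl le ONE il e l y = true) :
    TCell p q r x0 ((y : ℝ) / 2 ^ 48) ((e : ℝ) / 2 ^ 48) := by
  subst g0
  subst g1
  subst g2
  obtain ⟨d, l, rfl⟩ := List.exists_cons_of_ne_nil hl
  refine pcNB_tcell l d y H (sideLB_mem hs) fun u _ A hA hc' => ?_
  unfold sideNBX sideNT sideNX at hA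
  simp only [Bool.and_eq_true] at hA
  obtain ⟨⟨h0, h2, h3, h4⟩, sB, cP, cM⟩ := hA
  obtain ⟨H, HB⟩ := andB_tt hc'
  obtain ⟨H1, H⟩ := andB_tt H
  obtain ⟨H2, H3⟩ := andB_tt H
  refine tcell_of_z x1 x2 CBT ?_
  intro z y hy0 hya hyb hz _ _ hui hzx
  obtain ⟨t, h, hX⟩ := hD u.n.c h0 H1 hy0 hya hyb hz hui hzx
  have hI := chkIT_pos hM hn h1 H2 h.pt
  have hz1 := z_ne x1 hzx
  have hN : NZ (kap3 p q r) z := by
    have h2 := h.P.nz
    rwa [cκ_kR] at h2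
  have hfam := fam_ptT (famOKT_of hF) hp hq hr x1 t1 t2 t3 h.pt hy0 hz hzx hN h.a0 h.a1 h.a2 h.C
    h.u h.z (sideWT_iff h2) (sideWT_iff h3) (sideWT_iff h4) H3
  obtain ⟨hw1, hw2, hzw⟩ := zw_ne hz hz1
  have hom : ∀ s, DG s → omS p q r s (zw z) ≠ 0 := by
    intro s h
    rw [oZ_omS hz hz1 s h]
    exact nz_ne hN _
  exact hPt hz hz1 h.P hI hfam
    (hFB h.pt hp hq hr hom hzw hz h.a0 h.a1 h.a2 rfl rfl rfl h.C h.u h.z HB sB cP cM)

end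

section

variable {α β P v γ : Type} {D : ℕ} {lC : α → Vt (D + 1) → Cx} {lf : α → Vt (D + 1) → ℂ}
  {mf : (ℕ → ℝ) → β → (ℕ → ℝ) → ℝ} {lp : P → Vt (D + 1) → P9} {lv : v → Vt (D + 1) → VR}
  {lg : γ → Vt (D + 1) → ℕ} {Sa : α → List Bool → Prop} {Sp : P → List Bool → Prop}
  {Sv' : v → List Bool → Prop} {Sg : γ → List Bool → Prop} {M : Mc α β P v γ}
  {S : Sv P} {W : Vx β} {Y : ℕ → ℕ → α} {qd : ℕ → Cx → Cx → Cx → α} {rt : α → Bool}

/-- the same, tests of type B -/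
theorem nearT_YN {X : XM α v}
    (hZ : MZ D lC lf mf lp lv lg Sa Sp Sv' Sg M X.Q X.c X.r S W Y qd rt) {ONE : β}
    (h1 : ON mf ONE) {F : FTT α β (FDT β)} (hF : FamTOK (D + 1) lf mf F) {FB : BXT α β}
    (hFB : BXON (D + 1) lf mf FB) (hp : 3 ≤ p) (hq : 3 ≤ q) (hr : 3 ≤ r)
    {s0 s1 s2 : KS} {Xo : Mo α} {x0 : ℝ} (hC : CLD D lf M qd rt X Xo s0 s1 s2 (kR p q r) x0)
    (x1 : -2 < x0) (x2 : x0 ≤ 2) (t1 : xA p q r ≤ x0) (t2 : xA q r p ≤ x0) (t3 : xA r p q ≤ x0)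
    {W0 W1 W2 : WN} {G : TProg} {il : List IT}
    {sl : List ℕ} {le : List LT2} {idx : GS → T4 → ℕ} (hPt : PtY idx p q r G sl le il W0 W1 W2)
    {f0 f1 f2 : Bool} (g0 : f0 = W0.f) (g1 : f1 = W1.f) (g2 : f2 = W2.f)
    {l : List (NBT α β (FDT β))} (hl : l ≠ []) {As : List NAB}
    (hs : sideLB (sideNBX idx p q r W0 W1 W2 (sideT W le)) l As = true) {y e : ℕ}
    (H : chkPNB M S W Y F FB f0 f1 f2 X.k0 X.k1 X.k2 (mkCls M.A X.k0 X.k1 X.k2) (expandX X G)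
      Xo sl le ONE il e l y = true) :
    TCell p q r x0 ((y : ℝ) / 2 ^ 48) ((e : ℝ) / 2 ^ 48) := by
  refine list_NYN hZ.m.k hZ.w.pos h1 hF hFB hp hq hr x1 x2 t1 t2
    t3 hPt g0 g1 g2 hl hs ?_ H
  intro d hd hk z h hh0 hha hhb hz hui hzx
  obtain ⟨t, b1, b2, b3, b4, b5, b6, b7, b8⟩ := chkDTX_pt hZ hC hd hk (h := h)
    (by rw [div_le_iff₀ (by positivity)] at hha; linarith)
    (by rw [le_div_iff₀ (by positivity)] at hhb; linarith) hz hzx hui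
  have b9 := hC.x0 t b1 b3 b4 b5
  rw [cκ_kR] at b6
  exact ⟨t, ⟨b1, b2, b3, b4, b5, b6, b7, b8⟩, b9⟩

/-- constant line, known orders `≥ 10`: walls and tests of type B -/
theorem nearD_BN {X : XM α v}
    (hZ : MZ D lC lf mf lp lv lg Sa Sp Sv' Sg M X.Q X.c X.r S W Y qd rt) {ONE : β}
    (h1 : ON mf ONE) {F : FTT α β (FDT β)} (hF : FamTOK (D + 1) lf mf F) {FB : BXT α β}
    (hFB : BXON (D + 1) lf mf FB) {a b c : Lb}
    (ha : a.has p) (hb : b.has q) (hc : c.has r)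
    {s0 s1 s2 : KS} {Xz : Z} {n : ℕ} (hx : modXE M rt D X Xz n s0 s1 s2 a b c = true)
    (e0 : X.k0 = s0.mo M.A qd) (e1 : X.k1 = s1.mo M.A qd) (e2 : X.k2 = s2.mo M.A qd) {x0 : ℝ}
    (hX : |2 ^ 48 * x0 - (zv Xz : ℝ)| ≤ (n : ℝ)) (hT : Thr p q r x0)
    {W0 W1 W2 : WN} {RL : List (List (ℕ × ℕ))} (hRL : rlC p q r a b c RL = true)
    {G : TProg} {il : List IT} {sl : List ℕ} {le : List LT2}
    (hm : modDB p q r a b c W0 W1 W2 RL G il sl le = true)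
    {f0 f1 f2 : Bool} (g0 : f0 = W0.f) (g1 : f1 = W1.f) (g2 : f2 = W2.f)
    {l : List (NBT α β (FDT β))} (hl : l ≠ []) {As : List NAB}
    (hs : sideLB (sideNBX kD p q r W0 W1 W2 (sideT W le)) l As = true) {y e : ℕ}
    (H : chkPNB M S W Y F FB f0 f1 f2 X.k0 X.k1 X.k2 (mkCls M.A X.k0 X.k1 X.k2) (expandX X G)
      (cX M.A Xz n) sl le ONE il e l y = true) :
    TCell p q r x0 ((y : ℝ) / 2 ^ 48) ((e : ℝ) / 2 ^ 48) := by
  have hC := cld_E (X := X) hZ ha hb hc hx e0 e1 e2 hX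
  obtain ⟨hR, p10, q10, r10⟩ := rlC_ok ha hb hc hRL
  refine nearT_YN hZ h1 hF hFB (by omega) (by omega) (by omega) hC hT.gt hT.le hT.A1 hT.A2 hT.A3
    ?_ g0 g1 g2 hl hs H
  intro z hz hz1 K hP hI hfam hB
  exact ⟨_, near_certDB (by omega) (by omega) (by omega) (ML_ge4 p10 q10 r10) ha hb hc hz hz1 hP
    hR hm hI hfam hB⟩

end

end Pool.Agent.Helper84.XL
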