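import Pool.Agent.Helper84.XL.C
import Pool.Agent.Helper57.KNB.KC3
import Pool.Agent.Helper57.U2.B

/-!
Near cells with the types of the tail classes (no twin states), orders `>= 10` given as thin tails,
on a line given by a quadratic polynomial of the weight of the last label, tests of type B.
-/

set_option autoImplicit false
set_option exponentiation.threshold 4000
noncomputable section
namespace Pool.Agent.Helper84.XL

open Pool.Agent.Helper81.MIT
open Pool.Agent.Helper86.CX (Hm P9 VR ev Cx andB)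
open Pool.Agent.Helper86.CT (LT2 Mo Mc Mq Sv Vx Cls Prog CellT Rw chkDT mk addM uM zM Alg mkCls
  clsOK xAM xAOK)
open Pool.Agent.Helper90.C75 (Vt)
open Pool.Agent.Helper86.C75 (Z)
open Pool.Agent.Helper90.KMO (zv)
open Pool.Agent.Helper90.KMT (PT TOK KTab CLT)
open Pool.Agent.Helper6.MONO (fB Kp xA xA_gt xA_le2 xA_max xA_swap Thr)
open Pool.Agent.Helper6.MID
open Pool.Agent.Helper39.NCL (WN wS NA)
open Pool.Agent.Helper21.KRN (TProg PtR XM xOK cκ expand)
open Pool.Agent.Helper21.KTE (MZ KS wfK CLD sideT)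
open Pool.Agent.Helper48.NCT (IT FTT NDT chkNT chkPNT ON)
open Pool.Agent.Helper57.KNB (FDT FamTOK NBT NAB BXT BXOK chkPNB sideLB sideNBT modNB nearT_B)
open Pool.Agent.Helper57.U2 (TCellU)

variable {p q r : ℕ}

section

variable {α β P v γ : Type} {D : ℕ} {lC : α → Vt (D + 1) → Cx} {lf : α → Vt (D + 1) → ℂ}
  {mf : (ℕ → ℝ) → β → (ℕ → ℝ) → ℝ} {lp : P → Vt (D + 1) → P9} {lv : v → Vt (D + 1) → VR}
  {lg : γ → Vt (D + 1) → ℕ} {Sa : α → List Bool → Prop} {Sp : P → List Bool → Prop}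
  {Sv' : v → List Bool → Prop} {Sg : γ → List Bool → Prop} {M : Mc α β P v γ}
  {S : Sv P} {W : Vx β} {Y : ℕ → ℕ → α} {qd : ℕ → Cx → Cx → Cx → α} {rt : α → Bool}

/-- types of the tail classes, a line given by a quadratic polynomial, tests of type B -/
theorem nearL_QB {X : XM α v}
    (hZ : MZ D lC lf mf lp lv lg Sa Sp Sv' Sg M X.Q X.c X.r S W Y qd rt) {ONE : β}
    (h1 : ON mf ONE) {F : FTT α β (FDT β)} (hF : FamTOK (D + 1) lf mf F) {FB : BXT α β}
    (hFB : BXOK (D + 1) lf mf FB) {a b c : Lb} (ha : a.has p) (hb : b.has q) (hc : c.has r)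
    {s0 s1 : KS} {lo hi n : ℕ} {XA XB XC : Z}
    (hx : modXO M rt qd D X XA XB XC n s0 s1 lo hi a b c = true) (e0 : X.k0 = s0.mo M.A qd)
    (e1 : X.k1 = s1.mo M.A qd) (e2 : X.k2 = (KS.T 0 lo hi).mo M.A qd) {x0 : ℝ}
    (hX : XH XA XB XC lo hi n r x0) (hT : Thr p q r x0) (tB : fB p q r x0 = 0)
    {W0 W1 W2 : WN} {BE BO : List ℕ} {G : TProg} {il : List IT} {sl : List ℕ}
    {le : List LT2} (hm : modNB a b c W0 W1 W2 BE BO G il sl le = true)
    {f0 f1 f2 : Bool} (g0 : f0 = W0.f) (g1 : f1 = W1.f) (g2 : f2 = W2.f)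
    {l : List (NBT α β (FDT β))} (hl : l ≠ []) {As : List NAB}
    (hs : sideLB (sideNBT a b c W0 W1 W2 (sideT W le)) l As = true) {y e : ℕ}
    (H : chkPNB M S W Y F FB f0 f1 f2 X.k0 X.k1 X.k2 (mkCls M.A X.k0 X.k1 X.k2) (expand X G)
      (qM M.A qd XA XB XC n) sl le ONE il e l y = true) :
    TCellU p q r x0 ((y : ℝ) / 2 ^ 48) ((e : ℝ) / 2 ^ 48) :=
  .of_t (nearT_B hZ h1 hF hFB ha hb hc (cld_O (X := X) hZ ha hb hc hx e0 e1 e2 hX) hT.gt hT.le
    hT.A1 hT.A2 hT.A3 tB hm g0 g1 g2 hl hs H)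

end

end Pool.Agent.Helper84.XL
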