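import Pool.Agent.Helper84.XL.B

/-!
Near cells of mixed classes (orders known, also orders at least ten with thin weights, or tails)
in the format without twin states: one form per state and type, walls of the old kind.
-/

set_option autoImplicit false
set_option exponentiation.threshold 4000
noncomputable section
namespace Pool.Agent.Helper84.XL

open Pool.Agent.Helper81.MIT
open Pool.Agent.Helper86.CX hiding gM
open Pool.Agent.Helper86.CT (LT2)
open Pool.Agent.Helper6.MONO (V3 RV2 kk mm Kp Rb RMb omS zw LNI_mm RJ_one RJ_two DYm DLm)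
open Pool.Agent.Helper6.MONO.QTR (V0 e0)
open Pool.Agent.Helper21.SUP (GS DG gM DG_nx)
open Pool.Agent.Helper21.SUP renaming nx → nxs
open Pool.Agent.Helper39.SLT (T4 ML)
open Pool.Agent.Helper6.PRG (gsF giS tys gsF_giS mem_tys)
open Pool.Agent.Helper39.NCL (WN wS wS_next)
open Pool.Agent.Helper39.NFT (Ch CBT has_ge)
open Pool.Agent.Helper48.NCT (IT hasIT hasIT_iff NearC)
open Pool.Agent.Helper21.KRN (RI PI TProg eT oT rT lT RunIn KResT PtR kap cκ)
open Pool.Agent.Helper57.U2
open Complex ComplexConjugate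

variable {p q r : ℕ} {A B C : Od} {RL : List (List (ℕ × ℕ))} {BE BO : List ℕ} {G : TProg}
  {kx : ℕ → T4 → ℕ} {il : List IT} {run : GS → ℕ → ℕ → ℕ → Bool}

/-- a wall of the old kind at a state -/
def covP (kx : ℕ → T4 → ℕ) (A B C : Od) (run : GS → ℕ → ℕ → ℕ → Bool) (il : List IT) (W : WN)
    (i : ℕ) : Bool :=
  if W.f = true then
    ((odE A B C (edN (gsF i).1 (gsF i).2.2)).ty.all fun T =>
      if T = T4.three then true else
        if i < 3 then incl il W.e (kx i T) else
          run (gsF i) 3 (kx (giS (nxs (gsF i) 3)) T4.three) (kx i T) &&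
            run (gsF i) 3 W.e (kx i T)) &&
    (if i < 3 then incl il (kx i T4.three) W.x &&
      (run (gsF i) 3 (kx (giS (nxs (gsF i) 3)) T4.three) W.x &&
        run (gsF i) 3 (kx (giS (nxs (gsF i) 3)) T4.three) W.e) else true)
  else
    (odE A B C (edN (gsF i).1 (gsF i).2.2)).ty.all fun T =>
      run (gsF i) 3 (kx (giS (nxs (gsF i) 3)) T4.three) (kx i T)

/-- the three walls of the old kind -/
def wallP (kx : ℕ → T4 → ℕ) (A B C : Od) (W0 W1 W2 : WN) (run : GS → ℕ → ℕ → ℕ → Bool)
    (il : List IT) : Bool :=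
  (List.range 6).all fun i => covP kx A B C run il (wS W0 W1 W2 i) i

/-- walls of the old kind and a chain for the runs of two letters -/
def modPC (kx : ℕ → T4 → ℕ) (A B C : Od) (a b c : Lb) (W0 W1 W2 : WN) (cB : Ch)
    (RL : List (List (ℕ × ℕ))) (BE BO : List ℕ) (G : TProg) (il : List IT) (sl : List ℕ)
    (le : List LT2) : Bool :=
  modO0 kx kx A B C a b c RL BE BO G sl le &&
    (wallP kx A B C W0 W1 W2 (rnO A B C RL BE BO G) il &&
      chnO 2 T4.two kx kx A B C cB (rnO A B C RL BE BO G) il)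

section

variable {z : ℂ} {K : ℕ → Hm ℝ}

theorem KO_eq (i : Bool) (s : GS) (T : T4) : KO kx kx A B C K i s T = K (kO kx A B C s T) := by
  cases i <;> rfl

/-- THE WALLS OF THE OLD KIND -/
theorem hxO_of_wallP (ha : A.has p) (hb : B.has q) (hc : C.has r)
    (hR : RunO p q r z K run) {W0 W1 W2 : WN}
    (hcov : ∀ i < 6, covP kx A B C run il (wS W0 W1 W2 i) i = true)
    (hI : ∀ x ∈ il, ∀ y ∈ x.s, ∀ v, 0 < ev (K y.k) v → 0 < ev (K x.k) v)
    (hfam : ∀ s, DG s → giS s < 3 → (wS W0 W1 W2 (giS s)).f = true → ∀ m : ℕ, ∀ v,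
      0 < ev (K (wS W0 W1 W2 (giS s)).e) v → 0 < ev (K (wS W0 W1 W2 (giS s)).x)
        ((gM (RMb p q r) s (List.replicate 2 3) (zw z) ^ (m + 1)).mulVec v))
    (h4 : ∀ s, DG s → ∀ T : T4, T.ok (ML p q r s) → ∀ m, 4 ≤ m → m ≤ mm p q r s.1 s.2.1 → ∀ v,
      0 < ev (K (kO kx A B C s T)) v →
        0 < ev (K (kO kx A B C (nxs s m) (T4.next (mm p q r s.1 s.2.1) m)))
          ((RMb p q r s m (zw z)).mulVec v))
    (hB : HXU p q r (zw z) (KO kx kx A B C K) 2 T4.two) :
    HXU p q r (zw z) (KO kx kx A B C K) 3 T4.three := by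
  have hp := ha.ge3
  have hq := hb.ge3
  have hr := hc.ge3
  have h3m : ∀ s, DG s → 3 ≤ mm p q r s.1 s.2.1 := fun s h => LNI_mm hp hq hr _ _ h.1
  have hR' : ∀ {s : GS}, DG s → ∀ {k k' : ℕ}, run s 3 k k' = true → ∀ v : Fin 3 → ℂ,
      0 < ev (K k') v → 0 < ev (K k) ((RMb p q r s 3 (zw z)).mulVec v) :=
    fun {s} h {k k'} hb v hv => hR h (by norm_num) (h3m s h) hb v hv
  have at' : ∀ s, DG s → covP kx A B C run il (wS W0 W1 W2 (giS s)) (giS s) = true :=
    fun s hs => hcov _ (gsF_giS s hs).2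
  have e3 : ∀ s, kO kx A B C s T4.three = kx (giS s) T4.three := fun s => kO_three kx A B C s
  have mem : ∀ s, DG s → ∀ T : T4, T.ok (ML p q r s) →
      (odE A B C (edN s.1 s.2.2)).cut T ∈ (odE A B C (edN s.1 s.2.2)).ty :=
    fun s hs T hT => cutO_mem (lastO ha hb hc hs) hT
  have w1 : ∀ s, DG s → (wS W0 W1 W2 (giS s)).f = true → giS s < 3 → ∀ T : T4,
      T.ok (ML p q r s) → T ≠ T4.three →
      incl il (wS W0 W1 W2 (giS s)).e (kO kx A B C s T) = true := by
    intro s hs hf hb' T hT hT3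
    have h := at' s hs
    unfold covP at h
    rw [(gsF_giS s hs).1, if_pos hf, Bool.and_eq_true, List.all_eq_true] at h
    have h2 := h.1 _ (mem s hs T hT)
    rw [if_neg (cutO_ne (Or.inr rfl) hT3), if_pos hb'] at h2
    exact h2
  have w2 : ∀ s, DG s → (wS W0 W1 W2 (giS s)).f = true → ¬ giS s < 3 → ∀ T : T4,
      T.ok (ML p q r s) → T ≠ T4.three →
      run s 3 (kx (giS (nxs s 3)) T4.three) (kO kx A B C s T) = true ∧
        run s 3 (wS W0 W1 W2 (giS s)).e (kO kx A B C s T) = true := by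
    intro s hs hf hb' T hT hT3
    have h := at' s hs
    unfold covP at h
    rw [(gsF_giS s hs).1, if_pos hf, Bool.and_eq_true, List.all_eq_true] at h
    have h2 := h.1 _ (mem s hs T hT)
    rw [if_neg (cutO_ne (Or.inr rfl) hT3), if_neg hb', Bool.and_eq_true] at h2
    exact h2
  have w3 : ∀ s, DG s → (wS W0 W1 W2 (giS s)).f = true → giS s < 3 →
      incl il (kx (giS s) T4.three) (wS W0 W1 W2 (giS s)).x = true ∧
      run s 3 (kx (giS (nxs s 3)) T4.three) (wS W0 W1 W2 (giS s)).x = true ∧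
      run s 3 (kx (giS (nxs s 3)) T4.three) (wS W0 W1 W2 (giS s)).e = true := by
    intro s hs hf hb'
    have h := at' s hs
    unfold covP at h
    rw [(gsF_giS s hs).1, if_pos hf, Bool.and_eq_true, if_pos hb'] at h
    have h2 := h.2
    simp only [Bool.and_eq_true] at h2
    exact h2
  have w4 : ∀ s, DG s → (wS W0 W1 W2 (giS s)).f = false → ∀ T : T4, T.ok (ML p q r s) →
      run s 3 (kx (giS (nxs s 3)) T4.three) (kO kx A B C s T) = true := by
    intro s hs hf T hT
    have h := at' s hs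
    unfold covP at h
    rw [(gsF_giS s hs).1, if_neg (by rw [hf]; decide), List.all_eq_true] at h
    exact h _ (mem s hs T hT)
  have N : NearC p q r (zw z) (fun s T => K (kO kx A B C s T)) true
      (fun s => (wS W0 W1 W2 (giS s)).f) (fun s => K (wS W0 W1 W2 (giS s)).e)
      (fun s => K (wS W0 W1 W2 (giS s)).x) := by
    refine ⟨h4, ?_, ?_, ?_, ?_, ?_, ?_, ?_, ?_, ?_⟩
    · intro h0
      exact absurd h0 (by decide)
    · intro s hs hf T hT v hv
      have h5 := hR' hs (w4 s hs hf T hT) v hv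
      show 0 < ev (K (kO kx A B C (nxs s 3) T4.three)) _
      rw [e3]
      exact h5
    · intro s hs
      rw [wS_next s hs]
    · intro s hs hf hb' T hT hT3 v hv
      exact incl_of hI (w1 s hs hf hb' T hT hT3) hv
    · intro s hs hf hb' T hT hT3 v hv
      obtain ⟨h1, h2⟩ := w2 s hs hf hb' T hT hT3
      refine ⟨?_, ?_⟩
      · show 0 < ev (K (kO kx A B C (nxs s 3) T4.three)) _
        rw [e3]
        exact hR' hs h1 v hv
      · rw [wS_next s hs]
        exact hR' hs h2 v hv
    · intro s hs hf hb' v hv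
      obtain ⟨h1, h2, -⟩ := w3 s hs hf hb'
      refine ⟨?_, ?_⟩
      · show 0 < ev (K (kO kx A B C s T4.three)) v
        rw [e3]
        exact incl_of hI h1 hv
      · show 0 < ev (K (kO kx A B C (nxs s 3) T4.three)) _
        rw [e3]
        exact hR' hs h2 v hv
    · intro s hs hf hb' v hv
      obtain ⟨-, -, h3⟩ := w3 s hs hf hb'
      show 0 < ev (K (kO kx A B C (nxs s 3) T4.three)) _
      rw [e3]
      exact hR' hs h3 v hv
    · intro s hs hf hb' m v hv
      exact hfam s hs hb' hf m v hv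
    · intro _ s hs T hT hl hT2 k v hv
      have h5 := hB s hs T false hT (TJ_f T) hl hT2 k v (by rw [KO_eq]; exact hv)
      rw [KO_eq] at h5
      exact h5
  intro s hs T i hT hi hl hT3 k v hv
  rw [KO_eq] at hv ⊢
  cases hf : (wS W0 W1 W2 (giS s)).f with
  | true => exact N.wall hs hf hT hT3 k v hv
  | false => exact N.nowall hs hf hT k v hv

/-- walls of the old kind and a chain -/
theorem ptO_P {sl : List ℕ} {le : List LT2} {a b c : Lb} (oa : A.has p) (ob : B.has q)
    (oc : C.has r) (ha : a.has p) (hb : b.has q)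
    (hc : c.has r) (hRL : RTO A B C p q r RL) {W0 W1 W2 : WN} {cB : Ch}
    (hm : modPC kx A B C a b c W0 W1 W2 cB RL BE BO G il sl le = true) :
    PtU p q r G sl le il W0 W1 W2 := by
  intro z hz hz1 K hP hI hfam
  unfold modPC at hm
  simp only [Bool.and_eq_true] at hm
  obtain ⟨h0, hW, hC⟩ := hm
  have hbr := modO0_br h0
  have hR : RunO p q r z K (rnO A B C RL BE BO G) :=
    run_ofO oa ob oc hbr hRL hz hz1 hP.res
  have hB := hxO_of_ch (kf := kx) (kr := kx) (Or.inl rfl) le_rfl (by norm_num) oa ob oc hR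
    (chnO_all hC) hI
  have h4c : ∀ i < 6, cov4O kx kx A B C (rnO A B C RL BE BO G) i = true := by
    have h := h0
    unfold modO0 at h
    simp only [Bool.and_eq_true, List.all_eq_true] at h
    exact fun i hi => h.2.2.2 i (List.mem_range.2 hi)
  have hW' : ∀ i < 6, covP kx A B C (rnO A B C RL BE BO G) il (wS W0 W1 W2 i) i = true := by
    unfold wallP at hW
    rw [List.all_eq_true] at hW
    exact fun i hi => hW i (List.mem_range.2 hi)
  refine ⟨_, tcertO_pt oa ob oc ha hb hc hRL hz hz1 hP h0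
    (hxO_of_wallP oa ob oc hR hW' hI hfam ?_ hB) hB⟩
  intro s hs T hT m h4 hm v hv
  exact run_ofO oa ob oc hbr hRL hz hz1 hP.res hs (by omega) hm
    (four_ofO (i := false) oa ob oc hs (h4c _ (gsF_giS s hs).2) hT (TJ_f T) h4 hm) v hv

end

end Pool.Agent.Helper84.XL
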