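import Pool.Agent.Helper81.MIT.Gbx

/-!
Thin labels of the known orders `10 .. 48` (the weight rounded to a multiple of `2^-48`).
-/

set_option autoImplicit false
set_option exponentiation.threshold 4000
noncomputable section
namespace Pool.Agent.Helper84.XL

open Pool.Agent.Helper81.MIT
open Pool.Agent.Helper6.MONO (Kp)

/-- the label of a known order -/
theorem lbz_has (M : ℕ) (h : 10 ≤ M) (h' : M ≤ 48) :
    (Lb.tl (kbz M - 1) (kbz M + 1)).has M := by
  have h1 := kapz M (by omega) h'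
  have h2 : 1 ≤ kbz M := by
    interval_cases M <;> decide
  have e : 2 ^ 48 * Kp M - (kbz M : ℝ) = 2 ^ 48 * (Kp M - (kbz M : ℝ) / 2 ^ 48) := by
    field_simp
  have h3 : |2 ^ 48 * Kp M - (kbz M : ℝ)| ≤ 1 := by
    rw [e, abs_mul, abs_of_pos (by positivity : (0 : ℝ) < 2 ^ 48)]
    have h4 := mul_le_mul_of_nonneg_left h1 (by positivity : (0 : ℝ) ≤ 2 ^ 48)
    refine h4.trans (le_of_eq ?_)
    norm_num
  rw [abs_le] at h3
  refine ⟨h, ?_, ?_⟩
  · rw [Nat.cast_sub h2, Nat.cast_one]
    linarith [h3.1]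
  · push_cast
    linarith [h3.2]

end Pool.Agent.Helper84.XL
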